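import Pool.Agent.Helper36.RM.B01
import Pool.Agent.Helper36.RM.B02
import Pool.Agent.Helper36.RM.B03
import Pool.Agent.Helper36.RM.B04
import Pool.Agent.Helper36.RM.B05
import Pool.Agent.Helper36.RM.B06
import Pool.Agent.Helper36.RM.B07
import Pool.Agent.Helper36.RM.B08
import Pool.Agent.Helper36.RM.B09
import Pool.Agent.Helper36.RM.B10
import Pool.Agent.Helper36.RM.B11
import Pool.Agent.Helper36.RM.B12
import Pool.Agent.Helper36.RM.B13
import Pool.Agent.Helper36.RM.B14
import Pool.Agent.Helper36.RM.B15
import Pool.Agent.Helper36.RM.B16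
import Pool.Agent.Helper36.RM.B17
import Pool.Agent.Helper36.RM.C01
import Pool.Agent.Helper36.RM.C02
import Pool.Agent.Helper36.RM.C03
import Pool.Agent.Helper36.RM.C04
import Pool.Agent.Helper36.RM.C05
import Pool.Agent.Helper36.RM.D01
import Pool.Agent.Helper36.RM.D02
import Pool.Agent.Helper36.RM.D03
import Pool.Agent.Helper36.RM.D04
import Pool.Agent.Helper36.RM.D05
import Pool.Agent.Helper36.RM.D06

/-!
# Ramsey multiplicity one (MP_62567c_co): all certificates
-/

set_option autoImplicit false

namespace Pool.Agent.Helper36.RM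

theorem deadB (hTab : S_TAB) (j : Nat) (hj : j < siz 7) : Dead 7 7 8 (ent (LL 7) j) := by
  have hj' : j < 217 := hj
  rcases Nat.lt_or_ge j 35 with h | h35
  · exact B01.all hTab j (by omega) h
  rcases Nat.lt_or_ge j 76 with h | h76
  · exact B02.all hTab j (by omega) h
  rcases Nat.lt_or_ge j 102 with h | h102
  · exact B03.all hTab j (by omega) h
  rcases Nat.lt_or_ge j 121 with h | h121
  · exact B04.all hTab j (by omega) h
  rcases Nat.lt_or_ge j 141 with h | h141
  · exact B05.all hTab j (by omega) h
  rcases Nat.lt_or_ge j 152 with h | h152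
  · exact B06.all hTab j (by omega) h
  rcases Nat.lt_or_ge j 165 with h | h165
  · exact B07.all hTab j (by omega) h
  rcases Nat.lt_or_ge j 174 with h | h174
  · exact B08.all hTab j (by omega) h
  rcases Nat.lt_or_ge j 181 with h | h181
  · exact B09.all hTab j (by omega) h
  rcases Nat.lt_or_ge j 188 with h | h188
  · exact B10.all hTab j (by omega) h
  rcases Nat.lt_or_ge j 198 with h | h198
  · exact B11.all hTab j (by omega) h
  rcases Nat.lt_or_ge j 200 with h | h200
  · exact B12.all hTab j (by omega) h
  rcases Nat.lt_or_ge j 208 with h | h208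
  · exact B13.all hTab j (by omega) h
  rcases Nat.lt_or_ge j 211 with h | h211
  · exact B14.all hTab j (by omega) h
  rcases Nat.lt_or_ge j 214 with h | h214
  · exact B15.all hTab j (by omega) h
  rcases Nat.lt_or_ge j 215 with h | h215
  · exact B16.all hTab j (by omega) h
  exact B17.all hTab j (by omega) (by omega)

theorem deadC (hTab : S_TAB) (j : Nat) (hj : j < siz 8) : Dead 8 8 9 (ent (LL 8) j) := by
  have hj' : j < 402 := hj
  rcases Nat.lt_or_ge j 170 with h | h170
  · exact C01.all hTab j (by omega) h
  rcases Nat.lt_or_ge j 269 with h | h269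
  · exact C02.all hTab j (by omega) h
  rcases Nat.lt_or_ge j 349 with h | h349
  · exact C03.all hTab j (by omega) h
  rcases Nat.lt_or_ge j 392 with h | h392
  · exact C04.all hTab j (by omega) h
  exact C05.all hTab j (by omega) (by omega)

theorem deadD (hTab : S_TAB) (j : Nat) (hj : j < siz 8) : Dead 13 9 9 (ent (LL 8) j) := by
  have hj' : j < 402 := hj
  rcases Nat.lt_or_ge j 77 with h | h77
  · exact D01.all hTab j (by omega) h
  rcases Nat.lt_or_ge j 188 with h | h188
  · exact D02.all hTab j (by omega) h
  rcases Nat.lt_or_ge j 265 with h | h265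
  · exact D03.all hTab j (by omega) h
  rcases Nat.lt_or_ge j 301 with h | h301
  · exact D04.all hTab j (by omega) h
  rcases Nat.lt_or_ge j 391 with h | h391
  · exact D05.all hTab j (by omega) h
  exact D06.all hTab j (by omega) (by omega)

end Pool.Agent.Helper36.RM
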