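import Pool.Agent.Helper36.RM.Snd2

/-!
# Ramsey multiplicity one (MP_62567c_co): soundness of the checker, third part
-/

set_option autoImplicit false

namespace Pool.Agent.Helper36.RM

section
variable {c : Fin 14 → Fin 14 → Bool} {col : Bool} {φ : Nat → Fin 14} {n A T V w S : Nat}

/-- the code of the extension by a row -/
theorem enc_ext (hTab : S_TAB) (hb : Bad c) {x : Fin 14} {s : Nat} (hn : n ≤ 12)
    (hx : ∀ i, i < n → φ i ≠ x) (henc : Enc c col φ n A)
    (hs : ∀ j, s.testBit j = (decide (j < n) && (c (φ j) x == col))) :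
    Enc c col (Function.update φ n x) (n + 1)
      (Nat.lor A (Nat.lor (Nat.shiftLeft s (Nat.mul 16 n)) (Nat.shiftLeft (spread s) n))) := by
  have hslt : s < 8192 := by
    have : s < 2 ^ 13 := by
      apply Nat.lt_pow_two_of_testBit
      intro i hi
      rw [hs i]
      simp only [Bool.and_eq_false_iff, decide_eq_false_iff_not]
      left; omega
    simpa using this
  intro i j hi hj
  have hspr := hTab.spread s hslt
  have hbit : (Nat.lor A (Nat.lor (Nat.shiftLeft s (Nat.mul 16 n))
      (Nat.shiftLeft (spread s) n))).testBit (16 * i + j) = true ↔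
      (A.testBit (16 * i + j) = true ∨ (i = n ∧ s.testBit j = true) ∨
        (j = n ∧ s.testBit i = true)) := by
    show (A ||| ((s <<< (16 * n)) ||| ((spread s) <<< n))).testBit (16 * i + j) = true ↔ _
    rw [Nat.testBit_or, Nat.testBit_or, Nat.testBit_shiftLeft, Nat.testBit_shiftLeft, hspr]
    simp only [Bool.or_eq_true, Bool.and_eq_true, decide_eq_true_eq]
    refine or_congr Iff.rfl (or_congr ?_ ?_)
    · constructor
      · rintro ⟨h1, h2⟩
        have h3 : 16 * i + j - 16 * n < n := by
          by_contra hcon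
          rw [hs] at h2
          simp only [Bool.and_eq_true, decide_eq_true_eq] at h2
          exact hcon h2.1
        have h4 : i = n := by omega
        subst h4
        rw [show 16 * i + j - 16 * i = j by omega] at h2
        exact ⟨rfl, h2⟩
      · rintro ⟨rfl, h2⟩
        exact ⟨by omega, by rw [show 16 * i + j - 16 * i = j by omega]; exact h2⟩
    · constructor
      · rintro ⟨h1, h2, h3⟩
        have h4 : j = n := by omega
        subst h4
        rw [show (16 * i + j - j) / 16 = i by omega] at h3
        exact ⟨rfl, h3⟩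
      · rintro ⟨rfl, h2⟩
        exact ⟨by omega, by omega, by rw [show (16 * i + j - j) / 16 = i by omega]; exact h2⟩
  rw [hbit, henc i j hi hj, hs j, hs i]
  simp only [Bool.and_eq_true, decide_eq_true_eq, beq_iff_eq]
  have hup : ∀ k, k < n → Function.update φ n x k = φ k := fun k hk =>
    Function.update_of_ne (by omega) _ _
  have hupn : Function.update φ n x n = x := Function.update_self _ _ _
  constructor
  · rintro (⟨h1, h2, h3⟩ | ⟨rfl, h2, h3⟩ | ⟨rfl, h2, h3⟩)
    · rw [hup i h1, hup j h2]
      exact ⟨by omega, by omega, h3⟩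
    · rw [hupn, hup j h2]
      exact ⟨by omega, by omega, ad_symm hb ⟨hx j h2, h3⟩⟩
    · rw [hupn, hup i h2]
      exact ⟨by omega, by omega, ⟨hx i h2, h3⟩⟩
  · rintro ⟨h1, h2, h3⟩
    rcases Nat.lt_or_eq_of_le (Nat.le_of_lt_succ h1) with h4 | h4
    · rcases Nat.lt_or_eq_of_le (Nat.le_of_lt_succ h2) with h5 | h5
      · rw [hup i h4, hup j h5] at h3
        exact Or.inl ⟨h4, h5, h3⟩
      · subst h5
        rw [hupn, hup i h4] at h3
        exact Or.inr (Or.inr ⟨rfl, h4, h3.2⟩)
    · subst h4
      rcases Nat.lt_or_eq_of_le (Nat.le_of_lt_succ h2) with h5 | h5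
      · rw [hupn, hup j h5] at h3
        exact Or.inr (Or.inl ⟨rfl, h5, (ad_symm hb h3).2⟩)
      · subst h5
        exact absurd rfl h3.1

theorem inj_ext {x : Fin 14} (hinj : Inj φ n) (hx : ∀ i, i < n → φ i ≠ x) :
    Inj (Function.update φ n x) (n + 1) := by
  have hup : ∀ k, k < n → Function.update φ n x k = φ k := fun k hk =>
    Function.update_of_ne (by omega) _ _
  have hupn : Function.update φ n x n = x := Function.update_self _ _ _
  intro i j hi hj hij
  rcases Nat.lt_or_eq_of_le (Nat.le_of_lt_succ hi) with h4 | h4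
  · rcases Nat.lt_or_eq_of_le (Nat.le_of_lt_succ hj) with h5 | h5
    · rw [hup i h4, hup j h5] at hij
      exact hinj i j h4 h5 hij
    · subst h5
      rw [hupn, hup i h4] at hij
      exact absurd hij (hx i h4)
  · subst h4
    rcases Nat.lt_or_eq_of_le (Nat.le_of_lt_succ hj) with h5 | h5
    · rw [hupn, hup j h5] at hij
      exact absurd hij.symm (hx j h5)
    · exact h5.symm

theorem row_ext {x y : Fin 14} :
    row c (Function.update φ n x) y (n + 1) = row c φ y n + (c x y).toNat * 2 ^ n := by
  rw [row, Function.update_self]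
  rw [row_congr c (Function.update φ n x) φ y n (fun i hi => Function.update_of_ne (by omega) _ _)]

theorem vis_ext {x : Fin 14} (hV : Vis c φ n (fun _ => True) V) :
    Vis c (Function.update φ n x) (n + 1) (fun _ => True)
      (Nat.lor V (Nat.shiftLeft V (Nat.pow 2 n))) := by
  intro y hy _
  have hy' : ∀ i, i < n → φ i ≠ y := by
    intro i hi
    have := hy i (by omega)
    rwa [Function.update_of_ne (by omega)] at this
  have h := hV y hy' trivial
  rw [row_ext]
  show (V ||| (V <<< (2 ^ n))).testBit _ = true
  rw [Nat.testBit_or, Nat.testBit_shiftLeft]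
  cases c x y
  · simp only [Bool.toNat_false, zero_mul, add_zero, h, Bool.true_or]
  · simp only [Bool.toNat_true, one_mul, Nat.add_sub_cancel, h, Bool.and_true]
    simp

end

/-- the invariants -/
structure Inv (c : Fin 14 → Fin 14 → Bool) (DEG d0 n : Nat) (φ : Nat → Fin 14)
    (AR AB V : Nat) : Prop where
  bad : Bad c
  deg : ∀ col x, dg c col x ≤ DEG
  deg0 : d0 ≤ dg c true (φ 0)
  npos : 0 < n
  nle : n ≤ 13
  inj : Inj φ n
  encR : Enc c true φ n AR
  encB : Enc c false φ n AB
  vis : Vis c φ n (fun _ => True) V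

theorem ps_main (hTab : S_TAB) {c : Fin 14 → Fin 14 → Bool} {DEG d0 n : Nat} {φ : Nat → Fin 14}
    {AR AB V w S : Nat} {ih : Nat → Nat → Nat → Nat → Nat → Nat → Nat → Nat}
    (hI : Inv c DEG d0 n φ AR AB V)
    (hih : ∀ n φ AR AB V S, Inv c DEG d0 n φ AR AB V → ih n AR AB (tabR n) (tabB n) V S = 0) :
    pS n AR AB (tabR n) (tabB n) V w S ih = 0 := by
  unfold pS
  apply cond_zero; intro h1
  rw [frc_eq]
  apply cond_zero; intro h2
  rw [frc_eq, frc_eq, frc_eq, frc_eq]
  have h1' : n ≤ 12 := Nat.le_of_ble_eq_true h1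
  have h2' : Nat.shiftRight w 4 < 2 ^ n := Nat.le_of_ble_eq_true h2
  generalize Nat.shiftRight w 4 = s at h2'
  by_cases hex : ∃ x, (∀ i, i < n → φ i ≠ x) ∧ row c φ x n = s
  · obtain ⟨x, hx, hs⟩ := hex
    have hsbit : ∀ j, s.testBit j = (decide (j < n) && (c (φ j) x == true)) := by
      intro j
      by_cases hj : j < n
      · rw [← hs, row_testBit c φ x n j hj]
        simp [hj]
      · simp only [hj, decide_false, Bool.false_and]
        exact Nat.testBit_lt_two_pow (h2'.trans_le (Nat.pow_le_pow_right (by norm_num) (by omega)))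
    have hsbit' : ∀ j, (Nat.xor s (Nat.sub (Nat.pow 2 n) 1)).testBit j =
        (decide (j < n) && (c (φ j) x == false)) := by
      intro j
      show (s ^^^ (2 ^ n - 1)).testBit j = _
      rw [Nat.testBit_xor, hsbit j, Nat.testBit_two_pow_sub_one]
      by_cases hj : j < n
      · simp only [hj, decide_true, Bool.true_and]
        cases c (φ j) x <;> rfl
      · simp [hj]
    have hchild := hih (n + 1) (Function.update φ n x) _ _ _ S
      { bad := hI.bad
        deg := hI.deg
        deg0 := by
          rw [Function.update_of_ne (by have := hI.npos; omega)]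
          exact hI.deg0
        npos := by omega
        nle := by omega
        inj := inj_ext hI.inj hx
        encR := enc_ext hTab hI.bad h1' hx hI.encR hsbit
        encB := enc_ext hTab hI.bad h1' hx hI.encB hsbit'
        vis := vis_ext hI.vis }
    have hchild' : ih (Nat.succ n) (Nat.lor AR (Nat.lor (Nat.shiftLeft s (Nat.mul 16 n))
          (Nat.shiftLeft (spread s) n))) (Nat.lor AB (Nat.lor
          (Nat.shiftLeft (Nat.xor s (Nat.sub (Nat.pow 2 n) 1)) (Nat.mul 16 n))
          (Nat.shiftLeft (spread (Nat.xor s (Nat.sub (Nat.pow 2 n) 1))) n)))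
          (tabR (Nat.succ n)) (tabB (Nat.succ n))
          (Nat.lor V (Nat.shiftLeft V (Nat.pow 2 n))) S = 0 := hchild
    rw [hchild']
    rfl
  · have hcont : ∀ S', (frc (Nat.xor V (Nat.pow 2 s)) fun V'' =>
        ih n AR AB (tabR n) (tabB n) V'' S') = 0 := by
      intro S'
      rw [frc_eq]
      apply hih n φ
      refine { hI with vis := ?_ }
      intro y hy _
      have h := hI.vis y hy trivial
      show (V ^^^ (2 ^ s)).testBit (row c φ y n) = true
      rw [Nat.testBit_xor, h, Nat.testBit_two_pow]
      have : row c φ y n ≠ s := fun h' => hex ⟨y, hy, h'⟩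
      simp [Ne.symm this]
    generalize (ih (Nat.succ n) _ _ _ _ _ _) = r
    cases r with
    | zero => rfl
    | succ r => exact hcont r

theorem go_sound (hTab : S_TAB) {c : Fin 14 → Fin 14 → Bool} {DEG d0 : Nat} (hD : 0 < DEG)
    (fuel : Nat) : ∀ n φ AR AB V S, Inv c DEG d0 n φ AR AB V →
      go DEG d0 fuel n AR AB (tabR n) (tabB n) V S = 0 := by
  induction fuel with
  | zero => intro n φ AR AB V S _; rfl
  | succ fuel ih =>
    intro n φ AR AB V S hI
    show (frc (Nat.land S 16777215) fun w =>
      frc (Nat.shiftRight S 24) fun S =>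
        step DEG d0 (go DEG d0 fuel) n AR AB (tabR n) (tabB n) V S w) = 0
    rw [frc_eq, frc_eq]
    generalize Nat.land S 16777215 = w
    generalize Nat.shiftRight S 24 = S
    have hTR := hTab.tabR n hI.npos hI.nle
    have hTB := hTab.tabB n hI.npos hI.nle
    have hk : ∀ V', Vis c φ n (fun _ => True) V' →
        go DEG d0 fuel n AR AB (tabR n) (tabB n) V' S = 0 := fun V' hV' =>
      ih n φ AR AB V' S { hI with vis := hV' }
    unfold step
    generalize Nat.land w 7 = o
    rcases o with _ | _ | _ | _ | _ | o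
    · show cond (Nat.beq V 0) (Nat.succ S) 0 = 0
      apply cond_zero
      intro h
      exfalso
      have hV0 : V = 0 := Nat.eq_of_beq_eq_true h
      -- there is a remaining vertex
      obtain ⟨x, hx⟩ : ∃ x : Fin 14, ∀ i, i < n → φ i ≠ x := by
        by_contra hcon
        push Not at hcon
        have h1 : (Finset.univ : Finset (Fin 14)) ⊆ (Finset.range n).image φ := by
          intro x _
          obtain ⟨i, hi, hix⟩ := hcon x
          exact Finset.mem_image.2 ⟨i, Finset.mem_range.2 hi, hix⟩
        have h2 := (Finset.card_le_card h1).trans Finset.card_image_le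
        rw [Finset.card_univ, Fintype.card_fin, Finset.card_range] at h2
        have := hI.nle
        omega
      have := hI.vis x hx trivial
      rw [hV0, Nat.zero_testBit] at this
      exact absurd this (by simp)
    · show cond (tb w 3) (pA n AR (tabR n) V w S (go DEG d0 fuel n AR AB (tabR n) (tabB n)))
        (pA n AB (tabB n) V w S (go DEG d0 fuel n AR AB (tabR n) (tabB n))) = 0
      cases tb w 3
      · exact pa_main c false φ n AB _ V w S _ _ hI.bad hI.nle hI.inj hI.encB hTB hI.vis hk
      · exact pa_main c true φ n AR _ V w S _ _ hI.bad hI.nle hI.inj hI.encR hTR hI.vis hk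
    · show cond (tb w 3) (pB n AR (tabR n) V w S (go DEG d0 fuel n AR AB (tabR n) (tabB n)))
        (pB n AB (tabB n) V w S (go DEG d0 fuel n AR AB (tabR n) (tabB n))) = 0
      cases tb w 3
      · exact pb_main c false φ n AB _ V w S _ _ hI.bad hI.nle hI.inj hI.encB hTB hI.vis hk
      · exact pb_main c true φ n AR _ V w S _ _ hI.bad hI.nle hI.inj hI.encR hTR hI.vis hk
    · show cond (tb w 3) (pD DEG n AR (tabR n) V w S (go DEG d0 fuel n AR AB (tabR n) (tabB n)))
        (pD DEG n AB (tabB n) V w S (go DEG d0 fuel n AR AB (tabR n) (tabB n))) = 0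
      cases tb w 3
      · exact pd_main hTab hD (hI.deg false) hI.nle hI.inj hI.encB hTB hI.vis hk
      · exact pd_main hTab hD (hI.deg true) hI.nle hI.inj hI.encR hTR hI.vis hk
    · show pS n AR AB (tabR n) (tabB n) V w S (go DEG d0 fuel) = 0
      exact ps_main hTab hI ih
    · show cond (tb w 3) (pN DEG d0 n AR (tabR n) V w S true)
        (pN DEG d0 n AB (tabB n) V w S false) = 0
      cases tb w 3
      · exact pn_main hTab hI.npos hI.deg hI.deg0 hI.nle hI.encB hTB hI.vis
      · exact pn_main hTab hI.npos hI.deg hI.deg0 hI.nle hI.encR hTR hI.vis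

end Pool.Agent.Helper36.RM
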