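import Pool.Agent.Helper36.RM.Cls
import Pool.Agent.Helper36.RM.Snd3

/-!
# Ramsey multiplicity one (MP_62567c_co): the check of one root
-/

set_option autoImplicit false

namespace Pool.Agent.Helper36.RM

/-- the check of the `j`-th root of the packed list `LP` with the certificate `C` -/
@[reducible] noncomputable def chk (DEG d0 fuel n LP j C : Nat) : Bool :=
  frc (ent LP j) fun AR => frc (Nat.xor (offn n) AR) fun AB =>
    frc (Nat.sub (Nat.pow 2 (Nat.pow 2 n)) 1) fun V =>
      Nat.beq (go DEG d0 fuel n AR AB (tabR n) (tabB n) V C) 1

theorem offn_eq {n : Nat} (hn : n = 8 ∨ n = 9) : offn n = off n := by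
  rcases hn with rfl | rfl <;> rfl

theorem enc_off {c : Fin 14 → Fin 14 → Bool} {φ : Nat → Fin 14} {n A o : Nat} (hinj : Inj φ n)
    (ho : ∀ i j, i < 16 → j < 16 →
      o.testBit (16 * i + j) = (decide (i < n) && decide (j < n) && !decide (i = j)))
    (henc : Enc c true φ n A) : Enc c false φ n (Nat.xor o A) := by
  intro i j hi hj
  have h := henc i j hi hj
  show (o ^^^ A).testBit (16 * i + j) = true ↔ _
  rw [Nat.testBit_xor, ho i j hi hj]
  by_cases hin : i < n
  · by_cases hjn : j < n
    · by_cases hij : i = j
      · subst hij
        have hA : A.testBit (16 * i + i) = false := by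
          cases hA : A.testBit (16 * i + i) with
          | false => rfl
          | true => exact absurd rfl (h.1 hA).2.2.1
        rw [hA]
        simp [hin]
      · have hne : φ i ≠ φ j := fun h' => hij (hinj i j hin hjn h')
        cases hA : A.testBit (16 * i + j) with
        | false =>
          rw [hA] at h
          simp only [hin, hjn, hij, decide_true, decide_false, Bool.not_false, Bool.and_true,
            Bool.xor_false, true_iff, true_and]
          refine ⟨hne, ?_⟩
          cases hc : c (φ i) (φ j) with
          | false => rfl
          | true => exact absurd (h.2 ⟨hin, hjn, hne, hc⟩) (by simp)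
        | true =>
          rw [hA] at h
          have h' := (h.1 rfl).2.2.2
          simp only [hin, hjn, hij, decide_true, decide_false, Bool.not_false, Bool.and_true,
            Bool.xor_true, Bool.not_true, Bool.false_eq_true, false_iff, true_and]
          rintro ⟨_, h3⟩
          rw [h'] at h3
          exact absurd h3 (by simp)
    · have hA : A.testBit (16 * i + j) = false := by
        cases hA : A.testBit (16 * i + j) with
        | false => rfl
        | true => exact absurd (h.1 hA).2.1 hjn
      rw [hA]
      simp [hjn]
  · have hA : A.testBit (16 * i + j) = false := by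
      cases hA : A.testBit (16 * i + j) with
      | false => rfl
      | true => exact absurd (h.1 hA).1 hin
    rw [hA]
    simp [hin]

theorem dead_of (hTab : S_TAB) {DEG d0 fuel n LP j C : Nat} (hn : n = 8 ∨ n = 9) (hD : 0 < DEG)
    (h : chk DEG d0 fuel n LP j C = true) : Dead DEG d0 n (ent LP j) := by
  intro c hb hdeg φ hinj hd0 henc
  have h1 : (frc (ent LP j) fun AR => frc (Nat.xor (offn n) AR) fun AB =>
    frc (Nat.sub (Nat.pow 2 (Nat.pow 2 n)) 1) fun V =>
      Nat.beq (go DEG d0 fuel n AR AB (tabR n) (tabB n) V C) 1) = true := h
  rw [frc_eq, frc_eq, frc_eq] at h1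
  have h2 := Nat.eq_of_beq_eq_true h1
  have h3 := go_sound hTab (c := c) (DEG := DEG) (d0 := d0) hD fuel n φ (ent LP j)
    (Nat.xor (offn n) (ent LP j)) (Nat.sub (Nat.pow 2 (Nat.pow 2 n)) 1) C
    { bad := hb
      deg := hdeg
      deg0 := hd0
      npos := by omega
      nle := by omega
      inj := hinj
      encR := henc
      encB := by
        apply enc_off hinj _ henc
        rw [offn_eq hn]
        exact hTab.off n hn
      vis := by
        intro x _ _
        show (2 ^ (2 ^ n) - 1).testBit (row c φ x n) = true
        rw [Nat.testBit_two_pow_sub_one]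
        simpa using row_lt c φ x n }
  rw [h3] at h2
  exact absurd h2 (by norm_num)

end Pool.Agent.Helper36.RM
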