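import Pool.Agent.Helper36.RM.Stm

/-!
# Ramsey multiplicity one (MP_62567c_co): the checker of the classification

`LP` packs a list of codes (144 bits each); `ent LP j` is the `j`-th code.
-/

set_option autoImplicit false

namespace Pool.Agent.Helper36.RM

/-- the `j`-th code of a packed list -/
def ent (LP j : Nat) : Nat :=
  Nat.land (Nat.shiftRight LP (Nat.mul 144 j)) (Nat.sub (Nat.pow 2 144) 1)

/-- packed masks of squares -/
def sqm : Nat → Nat
  | 1 => 0x1
  | 2 => 0x30003
  | 3 => 0x700070007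
  | 4 => 0xf000f000f000f
  | 5 => 0x1f001f001f001f001f
  | 6 => 0x3f003f003f003f003f003f
  | 7 => 0x7f007f007f007f007f007f007f
  | 8 => 0xff00ff00ff00ff00ff00ff00ff00ff
  | 9 => 0x1ff01ff01ff01ff01ff01ff01ff01ff01ff
  | _ => 0

/-- packed off-diagonal matrices -/
def offn : Nat → Nat
  | 1 => 0x0
  | 2 => 0x10002
  | 3 => 0x300050006
  | 4 => 0x7000b000d000e
  | 5 => 0xf0017001b001d001e
  | 6 => 0x1f002f0037003b003d003e
  | 7 => 0x3f005f006f0077007b007d007e
  | 8 => 0x7f00bf00df00ef00f700fb00fd00fe
  | 9 => 0xff017f01bf01df01ef01f701fb01fd01fe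
  | _ => 0

/-- a loop -/
@[reducible] noncomputable def allB (N : Nat) (f : Nat → Bool) : Bool :=
  Nat.rec true (fun k ih => cond (f k) ih false) N

/-- the image of the vertex `i` -/
@[reducible] def sg (s i : Nat) : Nat := Nat.land (Nat.shiftRight s (Nat.mul 4 i)) 15

/-- equality of Booleans -/
@[reducible] def eqB (a b : Bool) : Bool := cond a b (cond b false true)

/-- `E` is the colouring `X` of `n` vertices, renamed by `s` -/
noncomputable def isoOK (n E X s : Nat) : Bool :=
  cond (Nat.beq (Nat.land E (sqm n)) E)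
    (cond (Nat.beq (sg s 0) 0)
      (allB n fun a => cond (Nat.ble (Nat.succ (sg s a)) n)
        (allB n fun b => cond (eqB (Nat.beq (sg s a) (sg s b)) (Nat.beq a b))
          (eqB (tb E (Nat.add (Nat.mul 16 a) b))
            (tb X (Nat.add (Nat.mul 16 (sg s a)) (sg s b)))) false) false) false) false

/-- the row `r` of a new vertex leads to a code of the next list -/
noncomputable def pM (LP N n AR V w S : Nat) (k : Nat → Nat → Nat) : Nat :=
  cond (Nat.ble n 8)
    (frc (Nat.shiftRight w 4) fun r =>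
     cond (Nat.ble (Nat.succ r) (Nat.pow 2 n))
      (cond (Nat.ble (Nat.succ (Nat.land S 16777215)) N)
        (cond (isoOK (Nat.succ n) (ent LP (Nat.land S 16777215))
            (Nat.lor AR (Nat.lor (Nat.shiftLeft r (Nat.mul 16 n)) (Nat.shiftLeft (spread r) n)))
            (Nat.land (Nat.shiftRight S 24) 281474976710655))
          (frc (Nat.xor V (Nat.pow 2 r)) fun V' => frc (Nat.shiftRight S 72) fun S' => k V' S')
          0) 0) 0) 0

/-- The checker of the classification: `0` is failure. Instructions: `0` done, `1`, `2` patterns,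
any other: a row. -/
noncomputable def cl (LP N fuel : Nat) : Nat → Nat → Nat → Nat → Nat → Nat → Nat → Nat :=
  Nat.rec (motive := fun _ => Nat → Nat → Nat → Nat → Nat → Nat → Nat → Nat)
    (fun _ _ _ _ _ _ _ => 0)
    (fun _ ih n AR AB TR TB V S =>
      frc (Nat.land S 16777215) fun w =>
      frc (Nat.shiftRight S 24) fun S =>
      Nat.rec
        (cond (Nat.beq V 0) 1 0)
        (fun o _ => Nat.rec
          (cond (tb w 3) (pA n AR TR V w S (ih n AR AB TR TB))
            (pA n AB TB V w S (ih n AR AB TR TB)))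
          (fun o _ => Nat.rec
            (cond (tb w 3) (pB n AR TR V w S (ih n AR AB TR TB))
              (pB n AB TB V w S (ih n AR AB TR TB)))
            (fun _ _ => pM LP N n AR V w S (ih n AR AB TR TB)) o) o) (Nat.land w 7)) fuel

/-- the check of a whole list of codes -/
noncomputable def clL (LP' N fuel n LP : Nat) (C : List Nat) : Nat → Bool :=
  List.rec (motive := fun _ => Nat → Bool) (fun _ => true)
    (fun C _ ih j => cond (Nat.beq (cl LP' N fuel n (ent LP j) (Nat.xor (offn n) (ent LP j))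
      (tabR n) (tabB n) (Nat.land (tabR n) (Nat.sub (Nat.pow 2 (Nat.pow 2 n)) 1)) C) 1)
      (ih (Nat.succ j)) false) C

/-- MODULE CLS -/
def S_CLS : Prop := S_TAB → S_PA → S_PB → ∀ (LP siz : Nat → Nat) (CC : Nat → List Nat) (fuel : Nat),
  0 < siz 0 → ent (LP 0) 0 = 0 → siz 0 = 1 →
  (∀ m, m < 8 → (CC m).length = siz m ∧
    clL (LP (m + 1)) (siz (m + 1)) fuel (m + 1) (LP m) (CC m) 0 = true) →
  ∀ m, m ≤ 8 → ∀ c, Bad c → ∀ v, m ≤ dg c true v →
    ∃ j φ, j < siz m ∧ φ 0 = v ∧ Inj φ (m + 1) ∧ Enc c true φ (m + 1) (ent (LP m) j)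

end Pool.Agent.Helper36.RM
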