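import Pool.Agent.Helper36.RM.Stm

/-!
# Ramsey multiplicity one (MP_62567c_co): soundness of the checker
-/

set_option autoImplicit false

namespace Pool.Agent.Helper36.RM

theorem frc_eq {α : Type} (n : Nat) (f : Nat → α) : frc n f = f n := by cases n <;> rfl

theorem cond_zero {b : Bool} {x : Nat} (h : b = true → x = 0) : cond b x 0 = 0 := by
  cases b
  · rfl
  · exact h rfl

theorem cond_zero' {b : Bool} {x : Nat} (h : b = false → x = 0) : cond b 0 x = 0 := by
  cases b
  · exact h rfl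
  · rfl

theorem xor_cut {b : Bool} (h : b = true → False) : (true ^^ b) = true := by
  cases b
  · rfl
  · exact (h rfl).elim

theorem tb_true {A i : Nat} (h : tb A i = true) : A.testBit i = true := by
  have h1 : (A >>> i) &&& 1 = 1 := Nat.eq_of_beq_eq_true h
  have h2 : ((A >>> i) &&& 1).testBit 0 = true := by rw [h1]; rfl
  rw [Nat.testBit_and, Nat.testBit_shiftRight] at h2
  simpa using h2

theorem tb_eq (A i : Nat) : tb A i = A.testBit i := by
  cases h : tb A i with
  | true => exact (tb_true h).symm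
  | false =>
    cases h' : A.testBit i with
    | false => rfl
    | true =>
      exfalso
      have h1 : (A >>> i) &&& 1 = 1 := by
        apply Nat.eq_of_testBit_eq
        intro k
        rw [Nat.testBit_and, Nat.testBit_shiftRight]
        cases k with
        | zero => simpa using h'
        | succ k =>
          have : Nat.testBit 1 (k + 1) = false := Nat.testBit_lt_two_pow (by
            have : 0 < 2 ^ k := Nat.two_pow_pos k
            rw [pow_succ]; omega)
          rw [this]; simp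
      have h2 : tb A i = true := by
        show Nat.beq ((A >>> i) &&& 1) 1 = true
        rw [h1]
        rfl
      rw [h] at h2
      exact absurd h2 (by simp)

theorem inc_true {A s m : Nat} (h : inc A s m = true) (i : Nat) (hi : m.testBit i = true) :
    A.testBit (s + i) = true := by
  have h1 : (A >>> s) &&& m = m := Nat.eq_of_beq_eq_true h
  have h2 : ((A >>> s) &&& m).testBit i = true := by rw [h1]; exact hi
  rw [Nat.testBit_and, Nat.testBit_shiftRight] at h2
  simp only [Bool.and_eq_true] at h2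
  exact h2.1

/-- nibbles -/
@[reducible] def nb (w k : Nat) : Nat := Nat.land (Nat.shiftRight w k) 15

theorem nb_eq (w k : Nat) : nb w k = w / 2 ^ k % 16 := by
  show (w >>> k) &&& (2 ^ 4 - 1) = w / 2 ^ k % 2 ^ 4
  rw [Nat.and_two_pow_sub_one_eq_mod, Nat.shiftRight_eq_div_pow]

theorem nb_lt (w k : Nat) : nb w k < 16 := by rw [nb_eq]; exact Nat.mod_lt _ (by norm_num)

theorem land240 (w : Nat) : Nat.land w 240 = 16 * nb w 4 := by
  have h : Nat.land w 240 = nb w 4 <<< 4 := by
    apply Nat.eq_of_testBit_eq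
    intro k
    show (w &&& (15 <<< 4)).testBit k = (((w >>> 4) &&& 15) <<< 4).testBit k
    rw [Nat.testBit_and, Nat.testBit_shiftLeft, Nat.testBit_shiftLeft, Nat.testBit_and,
      Nat.testBit_shiftRight]
    by_cases hk : 4 ≤ k
    · rw [show 4 + (k - 4) = k by omega]
      simp [hk]
    · simp [hk]
  rw [h, Nat.shiftLeft_eq]
  ring

theorem nb_shift (w k j : Nat) : nb (Nat.shiftRight w k) j = nb w (k + j) := by
  show ((w >>> k) >>> j) &&& 15 = (w >>> (k + j)) &&& 15
  rw [Nat.shiftRight_add]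

theorem land255 (w k : Nat) : Nat.land (Nat.shiftRight w k) 255 = 16 * nb w (k + 4) + nb w k := by
  rw [nb_eq, nb_eq]
  have h : Nat.land (Nat.shiftRight w k) 255 = w / 2 ^ k % 256 := by
    show (w >>> k) &&& (2 ^ 8 - 1) = w / 2 ^ k % 2 ^ 8
    rw [Nat.and_two_pow_sub_one_eq_mod, Nat.shiftRight_eq_div_pow]
  rw [h, pow_add, ← Nat.div_div_eq_div_mul]
  generalize w / 2 ^ k = x
  omega

theorem testBit_pow (a i : Nat) : (Nat.pow 2 a).testBit i = decide (a = i) :=
  Nat.testBit_two_pow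

theorem row_lt (c : Fin 14 → Fin 14 → Bool) (φ : Nat → Fin 14) (w : Fin 14) (n : Nat) :
    row c φ w n < 2 ^ n := by
  induction n with
  | zero => simp [row]
  | succ n ih =>
    rw [row, pow_succ]
    cases c (φ n) w <;> simp <;> omega

theorem row_testBit (c : Fin 14 → Fin 14 → Bool) (φ : Nat → Fin 14) (w : Fin 14) (n i : Nat)
    (hi : i < n) : (row c φ w n).testBit i = c (φ i) w := by
  induction n with
  | zero => omega
  | succ n ih =>
    have hlt := row_lt c φ w n
    rw [row]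
    rcases Nat.lt_or_eq_of_le (Nat.le_of_lt_succ hi) with h | h
    · rw [← ih h, add_comm]
      cases hc : c (φ n) w
      · simp
      · simp only [Bool.toNat_true, one_mul]
        exact Nat.testBit_two_pow_add_gt h _
    · subst h
      cases hc : c (φ i) w
      · simp only [Bool.toNat_false, zero_mul, add_zero]
        exact Nat.testBit_lt_two_pow hlt
      · simp only [Bool.toNat_true, one_mul]
        rw [add_comm, Nat.testBit_two_pow_add_eq, Nat.testBit_lt_two_pow hlt]
        rfl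

theorem row_congr (c : Fin 14 → Fin 14 → Bool) (φ ψ : Nat → Fin 14) (w : Fin 14) (n : Nat)
    (h : ∀ i, i < n → φ i = ψ i) : row c φ w n = row c ψ w n := by
  induction n with
  | zero => rfl
  | succ n ih =>
    rw [row, row, ih (fun i hi => h i (by omega)), h n (by omega)]

theorem tab_use {col : Bool} {n T u r : Nat} (hT : Tab col n T) (hu : u < n) (hr : r < 2 ^ n) :
    (Nat.shiftRight T (Nat.shiftLeft u n)).testBit r = (r.testBit u == col) := by
  have h : (T >>> (u <<< n)).testBit r = T.testBit (u * 2 ^ n + r) := by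
    rw [Nat.testBit_shiftRight, Nat.shiftLeft_eq]
  exact h.trans (hT u r hu hr)

section
variable {c : Fin 14 → Fin 14 → Bool} {col : Bool} {φ : Nat → Fin 14} {n A T V w S : Nat}
  {P : Fin 14 → Prop}

theorem tab_row (hT : Tab col n T) {u : Nat} (hu : u < n) (x : Fin 14) :
    (Nat.shiftRight T (Nat.shiftLeft u n)).testBit (row c φ x n) = (c (φ u) x == col) := by
  rw [tab_use hT hu (row_lt c φ x n), row_testBit c φ x n u hu]

theorem ad_symm (hb : Bad c) {x y : Fin 14} (h : ad c col x y) : ad c col y x :=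
  ⟨h.1.symm, by rw [hb.symm]; exact h.2⟩

theorem pa_main : S_PA := by
  intro c col φ n A T V w S k P hb hn hinj henc hT hV hk
  unfold pA
  apply cond_zero; intro h1
  apply cond_zero; intro h2
  apply cond_zero; intro h3
  apply cond_zero; intro h4
  rw [frc_eq]
  have h1' := Nat.eq_of_beq_eq_true h1
  rw [land240] at h2
  rw [show (8 : Nat) = 8 from rfl, land255] at h3
  rw [land255] at h4
  have e1 := (henc _ _ (nb_lt w (8 + 4)) (nb_lt w 8)).1 (tb_true h3)
  have e2 := (henc _ _ (nb_lt w (16 + 4)) (nb_lt w 16)).1 (tb_true h4)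
  have key : ∀ i, (Nat.lor (Nat.lor (Nat.pow 2 (nb w 12)) (Nat.pow 2 (nb w 8)))
      (Nat.lor (Nat.pow 2 (nb w 20)) (Nat.pow 2 (nb w 16)))).testBit i = true → i < 16 →
      nb w 4 < n ∧ i < n ∧ ad c col (φ (nb w 4)) (φ i) := fun i hi hi16 =>
    (henc _ _ (nb_lt w 4) hi16).1 (inc_true h2 i hi)
  have hor : ∀ i, (Nat.lor (Nat.lor (Nat.pow 2 (nb w 12)) (Nat.pow 2 (nb w 8)))
      (Nat.lor (Nat.pow 2 (nb w 20)) (Nat.pow 2 (nb w 16)))).testBit i =
      ((decide (nb w 12 = i) || decide (nb w 8 = i)) ||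
        (decide (nb w 20 = i) || decide (nb w 16 = i))) := by
    intro i
    show (((2 ^ (nb w 12)) ||| (2 ^ (nb w 8))) ||| ((2 ^ (nb w 20)) ||| (2 ^ (nb w 16)))).testBit i = _
    rw [Nat.testBit_or, Nat.testBit_or, Nat.testBit_or, Nat.testBit_two_pow, Nat.testBit_two_pow,
      Nat.testBit_two_pow, Nat.testBit_two_pow]
  have ka := key (nb w 12) (by rw [hor]; simp) (nb_lt _ _)
  have kb := key (nb w 8) (by rw [hor]; simp) (nb_lt _ _)
  have kc := key (nb w 20) (by rw [hor]; simp) (nb_lt _ _)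
  have kd := key (nb w 16) (by rw [hor]; simp) (nb_lt _ _)
  have hdis : ∀ i, ((decide (nb w 12 = i) || decide (nb w 8 = i)) &&
      (decide (nb w 20 = i) || decide (nb w 16 = i))) = false := by
    intro i
    have : ((((2 ^ (nb w 12)) ||| (2 ^ (nb w 8))) &&& ((2 ^ (nb w 20)) ||| (2 ^ (nb w 16)))) : Nat) = 0 := h1'
    have h := congrArg (fun x => Nat.testBit x i) this
    simpa [Nat.testBit_or, Nat.testBit_two_pow] using h
  have hac : nb w 12 ≠ nb w 20 := by
    intro h
    have := hdis (nb w 20)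
    rw [h] at this
    simp at this
  have had : nb w 12 ≠ nb w 16 := by
    intro h
    have := hdis (nb w 16)
    rw [h] at this
    simp at this
  have hbc : nb w 8 ≠ nb w 20 := by
    intro h
    have := hdis (nb w 20)
    rw [h] at this
    simp at this
  have hbd : nb w 8 ≠ nb w 16 := by
    intro h
    have := hdis (nb w 16)
    rw [h] at this
    simp at this
  apply hk
  intro x hx hP
  have hVx := hV x hx hP
  show (V ^^^ ((((V &&& (Nat.shiftRight T (Nat.shiftLeft (nb w 12) n))) &&&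
    (Nat.shiftRight T (Nat.shiftLeft (nb w 8) n))) &&&
    (Nat.shiftRight T (Nat.shiftLeft (nb w 20) n))) &&&
    (Nat.shiftRight T (Nat.shiftLeft (nb w 16) n)))).testBit (row c φ x n) = true
  rw [Nat.testBit_xor, Nat.testBit_and, Nat.testBit_and, Nat.testBit_and, Nat.testBit_and, hVx,
    tab_row hT ka.2.1, tab_row hT kb.2.1, tab_row hT kc.2.1, tab_row hT kd.2.1]
  rw [Bool.true_and]
  apply xor_cut
  intro h5
  simp only [Bool.and_eq_true, beq_iff_eq] at h5
  obtain ⟨⟨⟨q1, q2⟩, q3⟩, q4⟩ := h5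
  have a1 : ad c col x (φ (nb w 12)) := ad_symm hb ⟨hx _ ka.2.1, q1⟩
  have a2 : ad c col x (φ (nb w 8)) := ad_symm hb ⟨hx _ kb.2.1, q2⟩
  have a3 : ad c col x (φ (nb w 20)) := ad_symm hb ⟨hx _ kc.2.1, q3⟩
  have a4 : ad c col x (φ (nb w 16)) := ad_symm hb ⟨hx _ kd.2.1, q4⟩
  exact hb.free col (φ (nb w 4)) x (φ (nb w 12)) (φ (nb w 8)) (φ (nb w 20)) (φ (nb w 16))
    (hx _ ka.1) (fun h => hac (hinj _ _ ka.2.1 kc.2.1 h)) (fun h => had (hinj _ _ ka.2.1 kd.2.1 h))
    (fun h => hbc (hinj _ _ kb.2.1 kc.2.1 h)) (fun h => hbd (hinj _ _ kb.2.1 kd.2.1 h))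
    ka.2.2 kb.2.2 kc.2.2 kd.2.2 a1 a2 a3 a4 e1.2.2 e2.2.2

theorem pb_main : S_PB := by
  intro c col φ n A T V w S k P hb hn hinj henc hT hV hk
  unfold pB
  apply cond_zero; intro h1
  rw [frc_eq]
  apply cond_zero; intro h2
  apply cond_zero; intro h3
  apply cond_zero; intro h4
  apply cond_zero'; intro h5
  rw [frc_eq]
  have h1' := Nat.eq_of_beq_eq_true h1
  rw [land240, nb_shift] at h2 h3
  rw [land255] at h4
  have e1 := (henc _ _ (nb_lt w (16 + 4)) (nb_lt w 16)).1 (tb_true h4)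
  have hor : ∀ i, (Nat.lor (Nat.pow 2 (nb w 4))
      (Nat.lor (Nat.pow 2 (nb w 20)) (Nat.pow 2 (nb w 16)))).testBit i =
      (decide (nb w 4 = i) || (decide (nb w 20 = i) || decide (nb w 16 = i))) := by
    intro i
    show ((2 ^ (nb w 4)) ||| ((2 ^ (nb w 20)) ||| (2 ^ (nb w 16)))).testBit i = _
    rw [Nat.testBit_or, Nat.testBit_or, Nat.testBit_two_pow, Nat.testBit_two_pow,
      Nat.testBit_two_pow]
  have keyp : ∀ i, (Nat.lor (Nat.pow 2 (nb w 4))
      (Nat.lor (Nat.pow 2 (nb w 20)) (Nat.pow 2 (nb w 16)))).testBit i = true → i < 16 →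
      nb w 12 < n ∧ i < n ∧ ad c col (φ (nb w 12)) (φ i) := fun i hi hi16 =>
    (henc _ _ (nb_lt w 12) hi16).1 (inc_true h2 i hi)
  have keyq : ∀ i, (Nat.lor (Nat.pow 2 (nb w 4))
      (Nat.lor (Nat.pow 2 (nb w 20)) (Nat.pow 2 (nb w 16)))).testBit i = true → i < 16 →
      nb w 8 < n ∧ i < n ∧ ad c col (φ (nb w 8)) (φ i) := fun i hi hi16 =>
    (henc _ _ (nb_lt w 8) hi16).1 (inc_true h3 i hi)
  have py := keyp (nb w 4) (by rw [hor]; simp) (nb_lt _ _)
  have pz := keyp (nb w 20) (by rw [hor]; simp) (nb_lt _ _)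
  have pt := keyp (nb w 16) (by rw [hor]; simp) (nb_lt _ _)
  have qy := keyq (nb w 4) (by rw [hor]; simp) (nb_lt _ _)
  have qz := keyq (nb w 20) (by rw [hor]; simp) (nb_lt _ _)
  have qt := keyq (nb w 16) (by rw [hor]; simp) (nb_lt _ _)
  have hdis : ∀ i, ((decide (nb w 4 = i)) &&
      (decide (nb w 20 = i) || decide (nb w 16 = i))) = false := by
    intro i
    have : (((2 ^ (nb w 4)) &&& ((2 ^ (nb w 20)) ||| (2 ^ (nb w 16)))) : Nat) = 0 := h1'
    have h := congrArg (fun x => Nat.testBit x i) this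
    simpa [Nat.testBit_or, Nat.testBit_two_pow] using h
  have hyz : nb w 4 ≠ nb w 20 := by
    intro h
    have := hdis (nb w 20)
    rw [h] at this
    simp at this
  have hyt : nb w 4 ≠ nb w 16 := by
    intro h
    have := hdis (nb w 16)
    rw [h] at this
    simp at this
  have hpq : nb w 12 ≠ nb w 8 := by
    intro h
    have : Nat.beq (nb w 12) (nb w 8) = true := by rw [h]; exact Nat.beq_refl _
    have h5' : Nat.beq (nb w 12) (nb w 8) = false := h5
    rw [h5'] at this
    exact absurd this (by simp)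
  apply hk
  intro x hx hP
  have hVx := hV x hx hP
  show (V ^^^ (((V &&& (Nat.shiftRight T (Nat.shiftLeft (nb w 4) n))) &&&
    (Nat.shiftRight T (Nat.shiftLeft (nb w 12) n))) &&&
    (Nat.shiftRight T (Nat.shiftLeft (nb w 8) n)))).testBit (row c φ x n) = true
  rw [Nat.testBit_xor, Nat.testBit_and, Nat.testBit_and, Nat.testBit_and, hVx,
    tab_row hT py.2.1, tab_row hT py.1, tab_row hT qy.1]
  rw [Bool.true_and]
  apply xor_cut
  intro h5
  simp only [Bool.and_eq_true, beq_iff_eq] at h5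
  obtain ⟨⟨q1, q2⟩, q3⟩ := h5
  have a1 : ad c col (φ (nb w 4)) x := ⟨hx _ py.2.1, q1⟩
  have a2 : ad c col (φ (nb w 12)) x := ⟨hx _ py.1, q2⟩
  have a3 : ad c col (φ (nb w 8)) x := ⟨hx _ qy.1, q3⟩
  exact hb.free col (φ (nb w 12)) (φ (nb w 8)) (φ (nb w 4)) x (φ (nb w 20)) (φ (nb w 16))
    (fun h => hpq (hinj _ _ py.1 qy.1 h)) (fun h => hyz (hinj _ _ py.2.1 pz.2.1 h))
    (fun h => hyt (hinj _ _ py.2.1 pt.2.1 h)) (hx _ pz.2.1).symm (hx _ pt.2.1).symm
    py.2.2 a2 pz.2.2 pt.2.2 qy.2.2 a3 qz.2.2 qt.2.2 a1 e1.2.2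

end

end Pool.Agent.Helper36.RM
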