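import Pool.Agent.Helper36.RM.Cls
import Pool.Agent.Helper36.RM.Snd

/-!
# Ramsey multiplicity one (MP_62567c_co): soundness of the classification checker
-/

set_option autoImplicit false

namespace Pool.Agent.Helper36.RM.CL

theorem allB_use (N : Nat) (f : Nat → Bool) (h : allB N f = true) (k : Nat) (hk : k < N) :
    f k = true := by
  induction N with
  | zero => omega
  | succ N ih =>
    have h' : cond (f N) (allB N f) false = true := h
    cases hf : f N with
    | false => rw [hf] at h'; exact absurd h' (by simp)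
    | true =>
      rw [hf] at h'
      rcases Nat.lt_or_eq_of_le (Nat.le_of_lt_succ hk) with h1 | h1
      · exact ih h' h1
      · rw [h1]; exact hf

theorem eqB_use (a b : Bool) (h : eqB a b = true) : a = b := by
  revert h
  cases a <;> cases b <;> simp [eqB]

theorem cond_true {b x : Bool} (h : cond b x false = true) : b = true ∧ x = true := by
  revert h
  cases b <;> simp

theorem sqm_bit : ∀ n, n ≤ 9 → ∀ i, i < 16 → ∀ j, j < 16 →
    (sqm n).testBit (16 * i + j) = true → i < n ∧ j < n := by
  decide +kernel

theorem offn_bit : ∀ n, n ≤ 8 → 0 < n → ∀ i, i < 16 → ∀ j, j < 16 →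
    (offn n).testBit (16 * i + j) = (decide (i < n) && decide (j < n) && !decide (i = j)) := by
  decide +kernel

theorem enc_false (c : Fin 14 → Fin 14 → Bool) (φ : Nat → Fin 14) (n A : Nat) (h0 : 0 < n)
    (h8 : n ≤ 8) (hinj : Inj φ n) (h : Enc c true φ n A) :
    Enc c false φ n (Nat.xor (offn n) A) := by
  intro i j hi hj
  have h1 := h i j hi hj
  have h2 := offn_bit n h8 h0 i hi j hj
  have h3 : (Nat.xor (offn n) A).testBit (16 * i + j) =
      ((offn n).testBit (16 * i + j) ^^ A.testBit (16 * i + j)) :=
    Nat.testBit_xor ..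
  rw [h3, h2]
  by_cases hi' : i < n
  · by_cases hj' : j < n
    · by_cases hij : i = j
      · subst hij
        have : A.testBit (16 * i + i) = false := by
          rw [Bool.eq_false_iff]
          intro h5
          exact (h1.1 h5).2.2.1 rfl
        rw [this]
        simp [ad]
      · have hne : φ i ≠ φ j := fun h5 => hij (hinj i j hi' hj' h5)
        cases hA : A.testBit (16 * i + j) with
        | true =>
          have h6 := (h1.1 hA).2.2.2
          simp [hi', hj', hij, ad, h6]
        | false =>
          have h6 : ¬ (c (φ i) (φ j) = true) := fun h7 => by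
            have := h1.2 ⟨hi', hj', hne, h7⟩
            rw [hA] at this
            exact absurd this (by simp)
          simp [hi', hj', hij, ad, hne, h6]
    · have : A.testBit (16 * i + j) = false := by
        rw [Bool.eq_false_iff]
        intro h5
        exact hj' (h1.1 h5).2.1
      rw [this]
      simp [hj']
  · have : A.testBit (16 * i + j) = false := by
      rw [Bool.eq_false_iff]
      intro h5
      exact hi' (h1.1 h5).1
    rw [this]
    simp [hi']

/-- the extension by one vertex -/
def ext (φ : Nat → Fin 14) (n : Nat) (w : Fin 14) : Nat → Fin 14 := fun i => if i = n then w else φ i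

theorem ext_lt (φ : Nat → Fin 14) (n : Nat) (w : Fin 14) (i : Nat) (h : i < n) :
    ext φ n w i = φ i := by
  unfold ext
  rw [if_neg (by omega)]

theorem ext_self (φ : Nat → Fin 14) (n : Nat) (w : Fin 14) : ext φ n w n = w := by
  unfold ext
  rw [if_pos rfl]

theorem ext_inj (φ : Nat → Fin 14) (n : Nat) (w : Fin 14) (h : Inj φ n)
    (hw : ∀ i, i < n → φ i ≠ w) : Inj (ext φ n w) (n + 1) := by
  intro i j hi hj hij
  rcases Nat.lt_or_eq_of_le (Nat.le_of_lt_succ hi) with h1 | h1
  · rcases Nat.lt_or_eq_of_le (Nat.le_of_lt_succ hj) with h2 | h2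
    · rw [ext_lt _ _ _ _ h1, ext_lt _ _ _ _ h2] at hij
      exact h i j h1 h2 hij
    · subst h2
      rw [ext_lt _ _ _ _ h1, ext_self] at hij
      exact absurd hij (hw i h1)
  · subst h1
    rcases Nat.lt_or_eq_of_le (Nat.le_of_lt_succ hj) with h2 | h2
    · rw [ext_lt _ _ _ _ h2, ext_self] at hij
      exact absurd hij.symm (hw j h2)
    · exact h2.symm

theorem enc_ext (hTab : S_TAB) (c : Fin 14 → Fin 14 → Bool) (hb : Bad c) (φ : Nat → Fin 14)
    (n A : Nat) (w : Fin 14) (h8 : n ≤ 8)
    (hw : ∀ i, i < n → φ i ≠ w) (h : Enc c true φ n A) :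
    Enc c true (ext φ n w) (n + 1) (Nat.lor A (Nat.lor (Nat.shiftLeft (row c φ w n) (Nat.mul 16 n))
      (Nat.shiftLeft (spread (row c φ w n)) n))) := by
  intro i j hi hj
  set r := row c φ w n with hr
  have hrlt : r < 2 ^ n := row_lt c φ w n
  have hr256 : r < 8192 := lt_of_lt_of_le hrlt (le_trans (Nat.pow_le_pow_right (by norm_num) h8)
    (by norm_num))
  have hbig : ∀ k, n ≤ k → r.testBit k = false := fun k hk =>
    Nat.testBit_lt_two_pow (lt_of_lt_of_le hrlt (Nat.pow_le_pow_right (by norm_num) hk))
  have hsm : ∀ k, k < n → r.testBit k = c (φ k) w := fun k hk => row_testBit c φ w n k hk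
  have e1 : (Nat.lor A (Nat.lor (Nat.shiftLeft r (Nat.mul 16 n))
      (Nat.shiftLeft (spread r) n))).testBit (16 * i + j) =
      (A.testBit (16 * i + j) || ((r <<< (16 * n)).testBit (16 * i + j) ||
        ((spread r) <<< n).testBit (16 * i + j))) := by
    show (A ||| ((r <<< (16 * n)) ||| ((spread r) <<< n))).testBit (16 * i + j) = _
    rw [Nat.testBit_or, Nat.testBit_or]
  rw [e1, Nat.testBit_shiftLeft, Nat.testBit_shiftLeft, hTab.spread r hr256]
  have hA := h i j hi hj
  rcases Nat.lt_trichotomy i n with hin | hin | hin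
  · rcases Nat.lt_trichotomy j n with hjn | hjn | hjn
    · -- both old
      have h1 : (decide (16 * i + j ≥ 16 * n) && r.testBit (16 * i + j - 16 * n)) = false := by
        have : ¬ (16 * i + j ≥ 16 * n) := by omega
        simp [this]
      have h2 : (decide (16 * i + j ≥ n) && (decide ((16 * i + j - n) % 16 = 0) &&
          r.testBit ((16 * i + j - n) / 16))) = false := by
        by_cases h3 : 16 * i + j ≥ n
        · have : ¬ ((16 * i + j - n) % 16 = 0) := by omega
          simp [this]
        · simp [h3]
      rw [h1, h2, Bool.or_false, Bool.or_false, hA, ext_lt _ _ _ _ hin, ext_lt _ _ _ _ hjn]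
      constructor
      · rintro ⟨-, -, h3⟩; exact ⟨by omega, by omega, h3⟩
      · rintro ⟨-, -, h3⟩; exact ⟨hin, hjn, h3⟩
    · subst hjn
      have h1 : (decide (16 * i + j ≥ 16 * j) && r.testBit (16 * i + j - 16 * j)) = false := by
        have : ¬ (16 * i + j ≥ 16 * j) := by omega
        simp [this]
      have h2 : (decide (16 * i + j ≥ j) && (decide ((16 * i + j - j) % 16 = 0) &&
          r.testBit ((16 * i + j - j) / 16))) = c (φ i) w := by
        have h3 : 16 * i + j ≥ j := by omega
        have h4 : (16 * i + j - j) % 16 = 0 := by omega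
        have h5 : (16 * i + j - j) / 16 = i := by omega
        rw [h5, hsm i hin]
        simp [h3, h4]
      have h0 : A.testBit (16 * i + j) = false := by
        rw [Bool.eq_false_iff]
        intro h5
        exact absurd (hA.1 h5).2.1 (by omega)
      rw [h1, h2, h0, Bool.false_or, Bool.false_or, ext_lt _ _ _ _ hin, ext_self]
      constructor
      · intro h3; exact ⟨by omega, by omega, hw i hin, h3⟩
      · rintro ⟨-, -, -, h3⟩; exact h3
    · have h0 : A.testBit (16 * i + j) = false := by
        rw [Bool.eq_false_iff]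
        intro h5
        exact absurd (hA.1 h5).2.1 (by omega)
      have h1 : (decide (16 * i + j ≥ 16 * n) && r.testBit (16 * i + j - 16 * n)) = false := by
        by_cases h3 : 16 * i + j ≥ 16 * n
        · rw [hbig _ (by omega)]; simp
        · simp [h3]
      have h2 : (decide (16 * i + j ≥ n) && (decide ((16 * i + j - n) % 16 = 0) &&
          r.testBit ((16 * i + j - n) / 16))) = false := by
        have : ¬ ((16 * i + j - n) % 16 = 0) := by omega
        simp [this]
      rw [h1, h2, h0]
      simp only [Bool.or_self, Bool.false_eq_true, false_iff, not_and]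
      intro _ h5
      omega
  · subst hin
    have h0 : A.testBit (16 * i + j) = false := by
      rw [Bool.eq_false_iff]
      intro h5
      exact absurd (hA.1 h5).1 (by omega)
    have h1 : (decide (16 * i + j ≥ 16 * i) && r.testBit (16 * i + j - 16 * i)) = r.testBit j := by
      have h3 : 16 * i + j ≥ 16 * i := by omega
      have h4 : 16 * i + j - 16 * i = j := by omega
      rw [h4]; simp [h3]
    have h2 : (decide (16 * i + j ≥ i) && (decide ((16 * i + j - i) % 16 = 0) &&
        r.testBit ((16 * i + j - i) / 16))) = false := by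
      by_cases h3 : (16 * i + j - i) % 16 = 0
      · have h4 : (16 * i + j - i) / 16 = i := by omega
        rw [h4, hbig i (le_refl _)]; simp
      · simp [h3]
    rw [h0, h1, h2, Bool.false_or, Bool.or_false, ext_self]
    rcases Nat.lt_trichotomy j i with hji | hji | hji
    · rw [hsm j hji, ext_lt _ _ _ _ hji]
      constructor
      · intro h3; exact ⟨by omega, by omega, (hw j hji).symm, by rw [hb.symm]; exact h3⟩
      · rintro ⟨-, -, -, h3⟩; rw [hb.symm]; exact h3
    · subst hji
      rw [hbig j (le_refl _), ext_self]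
      simp [ad]
    · rw [hbig j (by omega)]
      simp only [Bool.false_eq_true, false_iff, not_and]
      intro _ h5
      omega
  · have h0 : A.testBit (16 * i + j) = false := by
      rw [Bool.eq_false_iff]
      intro h5
      exact absurd (hA.1 h5).1 (by omega)
    have h1 : (decide (16 * i + j ≥ 16 * n) && r.testBit (16 * i + j - 16 * n)) = false := by
      rw [hbig _ (by omega)]; simp
    have h2 : (decide (16 * i + j ≥ n) && (decide ((16 * i + j - n) % 16 = 0) &&
        r.testBit ((16 * i + j - n) / 16))) = false := by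
      by_cases h3 : (16 * i + j - n) % 16 = 0
      · rw [hbig _ (by omega)]; simp
      · simp [h3]
    rw [h1, h2, h0]
    simp only [Bool.or_self, Bool.false_eq_true, false_iff, not_and]
    intro h5
    omega

theorem iso_use (c : Fin 14 → Fin 14 → Bool) (ψ : Nat → Fin 14) (n E X s : Nat) (hn : n ≤ 9)
    (hX : Enc c true ψ n X) (hinj : Inj ψ n) (h : isoOK n E X s = true) :
    sg s 0 = 0 ∧ Inj (fun i => ψ (sg s i)) n ∧ Enc c true (fun i => ψ (sg s i)) n E := by
  unfold isoOK at h
  obtain ⟨h1, h⟩ := cond_true h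
  obtain ⟨h2, h⟩ := cond_true h
  have h1' : E &&& (sqm n) = E := Nat.eq_of_beq_eq_true h1
  have h2' : sg s 0 = 0 := Nat.eq_of_beq_eq_true h2
  have hlt : ∀ a, a < n → sg s a < n := by
    intro a ha
    obtain ⟨h3, -⟩ := cond_true (allB_use n _ h a ha)
    exact Nat.le_of_ble_eq_true h3
  have hpair : ∀ a b, a < n → b < n → (Nat.beq (sg s a) (sg s b) = Nat.beq a b) ∧
      (tb E (Nat.add (Nat.mul 16 a) b) = tb X (Nat.add (Nat.mul 16 (sg s a)) (sg s b))) := by
    intro a b ha hb
    obtain ⟨-, h3⟩ := cond_true (allB_use n _ h a ha)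
    obtain ⟨h4, h5⟩ := cond_true (allB_use n _ h3 b hb)
    exact ⟨eqB_use _ _ h4, eqB_use _ _ h5⟩
  refine ⟨h2', ?_, ?_⟩
  · intro a b ha hb hab
    have h3 := hinj _ _ (hlt a ha) (hlt b hb) hab
    have h4 := (hpair a b ha hb).1
    rw [h3] at h4
    have h5 : Nat.beq (sg s b) (sg s b) = true := Nat.beq_refl _
    rw [h5] at h4
    exact Nat.eq_of_beq_eq_true h4.symm
  · intro i j hi hj
    have key : i < n → j < n → (E.testBit (16 * i + j) = true ↔
        ad c true (ψ (sg s i)) (ψ (sg s j))) := by
      intro hi' hj'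
      have h3 := (hpair i j hi' hj').2
      rw [tb_eq, tb_eq] at h3
      have h4 : E.testBit (16 * i + j) = X.testBit (16 * (sg s i) + (sg s j)) := h3
      have hsi := hlt i hi'
      have hsj := hlt j hj'
      rw [h4, hX _ _ (by omega) (by omega)]
      constructor
      · rintro ⟨-, -, h5⟩; exact h5
      · intro h5; exact ⟨hsi, hsj, h5⟩
    constructor
    · intro hE
      have h3 : (E &&& (sqm n)).testBit (16 * i + j) = true := by rw [h1']; exact hE
      rw [Nat.testBit_and, Bool.and_eq_true] at h3
      have h4 := sqm_bit n hn i hi j hj h3.2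
      exact ⟨h4.1, h4.2, (key h4.1 h4.2).1 hE⟩
    · rintro ⟨h3, h4, h5⟩
      exact (key h3 h4).2 h5

theorem exists_new (c : Fin 14 → Fin 14 → Bool) (φ : Nat → Fin 14) (m : Nat) (v : Fin 14)
    (hv : φ 0 = v) (hd : m + 1 ≤ dg c true v) :
    ∃ w, (∀ i, i < m + 1 → φ i ≠ w) ∧ ad c true v w := by
  by_contra hno
  push Not at hno
  have hsub : (Finset.univ.filter fun y => ad c true v y) ⊆
      ((Finset.range (m + 1)).erase 0).image φ := by
    intro y hy
    rw [Finset.mem_filter] at hy
    have hy2 := hy.2
    by_contra hny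
    refine hno y ?_ hy2
    intro i hi hiy
    apply hny
    rw [Finset.mem_image]
    refine ⟨i, ?_, hiy⟩
    rw [Finset.mem_erase, Finset.mem_range]
    refine ⟨?_, hi⟩
    rintro rfl
    exact hy2.1 (hv.symm.trans hiy)
  have h1 := Finset.card_le_card hsub
  have h2 : (((Finset.range (m + 1)).erase 0).image φ).card ≤ m := by
    refine le_trans Finset.card_image_le ?_
    rw [Finset.card_erase_of_mem (by simp), Finset.card_range]
    omega
  unfold dg at hd
  omega

theorem cl_zero (hTab : S_TAB) (hPA : S_PA) (hPB : S_PB) (c : Fin 14 → Fin 14 → Bool) (hb : Bad c)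
    (φ : Nat → Fin 14) (n AR LP N : Nat) (h0 : 0 < n) (h8 : n ≤ 8) (hinj : Inj φ n)
    (hE : Enc c true φ n AR) (w0 : Fin 14) (hw : ∀ i, i < n → φ i ≠ w0)
    (hno : ∀ j φ', j < N → φ' 0 = φ 0 → Inj φ' (n + 1) → Enc c true φ' (n + 1) (ent LP j) → False)
    (fuel : Nat) : ∀ V S, Vis c φ n (fun w => w = w0) V →
      cl LP N fuel n AR (Nat.xor (offn n) AR) (tabR n) (tabB n) V S = 0 := by
  induction fuel with
  | zero => intro V S _; rfl
  | succ fuel ih =>
    intro V S hV
    have hE' := enc_false c φ n AR h0 h8 hinj hE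
    have hT := hTab.tabR n h0 (by omega)
    have hT' := hTab.tabB n h0 (by omega)
    show frc (Nat.land S 16777215) (fun w => frc (Nat.shiftRight S 24) (fun S => Nat.rec
        (cond (Nat.beq V 0) 1 0)
        (fun o _ => Nat.rec
          (cond (tb w 3) (pA n AR (tabR n) V w S (cl LP N fuel n AR (Nat.xor (offn n) AR) (tabR n) (tabB n)))
            (pA n (Nat.xor (offn n) AR) (tabB n) V w S (cl LP N fuel n AR (Nat.xor (offn n) AR) (tabR n) (tabB n))))
          (fun o _ => Nat.rec
            (cond (tb w 3) (pB n AR (tabR n) V w S (cl LP N fuel n AR (Nat.xor (offn n) AR) (tabR n) (tabB n)))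
              (pB n (Nat.xor (offn n) AR) (tabB n) V w S (cl LP N fuel n AR (Nat.xor (offn n) AR) (tabR n) (tabB n))))
            (fun _ _ => pM LP N n AR V w S (cl LP N fuel n AR (Nat.xor (offn n) AR) (tabR n) (tabB n))) o) o)
              (Nat.land w 7))) = 0
    rw [frc_eq, frc_eq]
    generalize Nat.land S 16777215 = w
    generalize Nat.shiftRight S 24 = S
    generalize hk : cl LP N fuel n AR (Nat.xor (offn n) AR) (tabR n) (tabB n) = k at ih ⊢
    have hk' : ∀ V', Vis c φ n (fun w => w = w0) V' → ∀ S, k V' S = 0 := fun V' h S => ih V' S h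
    rcases Nat.land w 7 with _ | _ | _ | o
    · show cond (Nat.beq V 0) 1 0 = 0
      cases hV0 : Nat.beq V 0 with
      | false => rfl
      | true =>
        exfalso
        have h1 : V = 0 := Nat.eq_of_beq_eq_true hV0
        have h2 := hV w0 hw rfl
        rw [h1, Nat.zero_testBit] at h2
        exact absurd h2 (by simp)
    · show cond (tb w 3) (pA n AR (tabR n) V w S k) (pA n (Nat.xor (offn n) AR) (tabB n) V w S k) = 0
      cases tb w 3 with
      | true =>
        exact hPA c true φ n AR (tabR n) V w S k _ hb (by omega) hinj hE hT hV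
          (fun V' h => hk' V' h S)
      | false =>
        exact hPA c false φ n _ (tabB n) V w S k _ hb (by omega) hinj hE' hT' hV
          (fun V' h => hk' V' h S)
    · show cond (tb w 3) (pB n AR (tabR n) V w S k) (pB n (Nat.xor (offn n) AR) (tabB n) V w S k) = 0
      cases tb w 3 with
      | true =>
        exact hPB c true φ n AR (tabR n) V w S k _ hb (by omega) hinj hE hT hV
          (fun V' h => hk' V' h S)
      | false =>
        exact hPB c false φ n _ (tabB n) V w S k _ hb (by omega) hinj hE' hT' hV
          (fun V' h => hk' V' h S)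
    · show pM LP N n AR V w S k = 0
      unfold pM
      apply cond_zero; intro h1
      rw [frc_eq]
      generalize Nat.shiftRight w 4 = r
      apply cond_zero; intro h2
      apply cond_zero; intro h3
      apply cond_zero; intro h4
      rw [frc_eq, frc_eq]
      apply hk'
      intro w' hw' hw''
      subst hw''
      have h5 : (Nat.xor V (Nat.pow 2 r)).testBit (row c φ w' n) =
          (V.testBit (row c φ w' n) ^^ (2 ^ r).testBit (row c φ w' n)) := Nat.testBit_xor ..
      rw [h5, hV w' hw' rfl, Nat.testBit_two_pow]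
      by_cases hr : r = row c φ w' n
      · exfalso
        subst hr
        have hX := enc_ext hTab c hb φ n AR w' h8 hw hE
        have h6 := iso_use c (ext φ n w') (n + 1) _ _ _ (by omega) hX (ext_inj φ n w' hinj hw) h4
        refine hno (Nat.land S 16777215) (fun i => ext φ n w' (sg
          (Nat.land (Nat.shiftRight S 24) 281474976710655) i)) (Nat.le_of_ble_eq_true h3) ?_ h6.2.1
          h6.2.2
        show ext φ n w' (sg (Nat.land (Nat.shiftRight S 24) 281474976710655) 0) = φ 0
        rw [h6.1, ext_lt _ _ _ _ h0]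
      · simp [hr]

theorem clL_use (LP' N fuel n LP : Nat) (C : List Nat) : ∀ j0,
    clL LP' N fuel n LP C j0 = true → ∀ i, i < C.length → ∃ S,
    cl LP' N fuel n (ent LP (j0 + i)) (Nat.xor (offn n) (ent LP (j0 + i)))
      (tabR n) (tabB n) (Nat.land (tabR n) (Nat.sub (Nat.pow 2 (Nat.pow 2 n)) 1)) S = 1 := by
  induction C with
  | nil => intro j0 _ i hi; simp at hi
  | cons C L ih =>
    intro j0 h i hi
    have h' : cond (Nat.beq (cl LP' N fuel n (ent LP j0) (Nat.xor (offn n) (ent LP j0))
      (tabR n) (tabB n) (Nat.land (tabR n) (Nat.sub (Nat.pow 2 (Nat.pow 2 n)) 1)) C) 1)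
      (clL LP' N fuel n LP L (Nat.succ j0)) false = true := h
    obtain ⟨h1, h2⟩ := cond_true h'
    cases i with
    | zero => exact ⟨C, Nat.eq_of_beq_eq_true h1⟩
    | succ i =>
      have h3 := ih (Nat.succ j0) h2 i (by simpa using hi)
      rw [show j0 + (i + 1) = Nat.succ j0 + i by omega]
      exact h3

theorem cls : S_CLS := by
  intro hTab hPA hPB LP siz CC fuel hs0 he0 hs1 hdata m
  induction m with
  | zero =>
    intro _ c _ v _
    refine ⟨0, fun _ => v, hs0, rfl, ?_, ?_⟩
    · intro i j hi hj _
      omega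
    · intro i j _ _
      rw [he0, Nat.zero_testBit]
      simp [ad]
  | succ m ih =>
    intro hm c hb v hd
    by_contra hcon
    obtain ⟨j, φ, hj, hv, hinj, hE⟩ := ih (by omega) c hb v (by omega)
    obtain ⟨w0, hw, hadj⟩ := exists_new c φ m v hv hd
    have hmd := hdata m (by omega)
    obtain ⟨S, hS⟩ := clL_use _ _ _ _ _ _ 0 hmd.2 j (by rw [hmd.1]; exact hj)
    rw [Nat.zero_add] at hS
    have h0 := cl_zero hTab hPA hPB c hb φ (m + 1) (ent (LP m) j) (LP (m + 1)) (siz (m + 1))
      (by omega) (by omega) hinj hE w0 hw (by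
        intro j' φ' hj' hv' hinj' hE'
        exact hcon ⟨j', φ', hj', hv'.trans hv, hinj', hE'⟩) fuel
      (Nat.land (tabR (m + 1)) (Nat.sub (Nat.pow 2 (Nat.pow 2 (m + 1))) 1)) S ?_
    · rw [h0] at hS
      exact absurd hS (by norm_num)
    · intro w hw' hww
      subst hww
      have hlt := row_lt c φ w (m + 1)
      have h1 : (Nat.land (tabR (m + 1)) (Nat.sub (Nat.pow 2 (Nat.pow 2 (m + 1))) 1)).testBit
          (row c φ w (m + 1)) = ((tabR (m + 1)).testBit (row c φ w (m + 1)) &&
            (2 ^ (2 ^ (m + 1)) - 1).testBit (row c φ w (m + 1))) := Nat.testBit_and ..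
      have h2 := hTab.tabR (m + 1) (by omega) (by omega) 0 (row c φ w (m + 1)) (by omega) hlt
      rw [Nat.zero_mul, Nat.zero_add, row_testBit c φ w (m + 1) 0 (by omega), hv, hadj.2] at h2
      rw [h1, h2, Nat.testBit_two_pow_sub_one]
      simp [hlt]

end Pool.Agent.Helper36.RM.CL
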