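import Mathlib

/-!
# Ramsey multiplicity one (MP_62567c_co): statements

`F` is the graph with two non-adjacent vertices `p`, `q` joined to two disjoint edges `ab`, `cd`
(the complement of the disjoint union of an edge and a 4-cycle).
-/

set_option autoImplicit false

namespace Pool.Agent.Helper36.RM

/-- `G` contains a copy of `F` (as a subgraph). -/
def Cop {V : Type} (G : SimpleGraph V) : Prop :=
  ∃ p q a b c d : V, p ≠ q ∧ a ≠ c ∧ a ≠ d ∧ b ≠ c ∧ b ≠ d ∧ G.Adj p a ∧ G.Adj p b ∧ G.Adj p c ∧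
    G.Adj p d ∧ G.Adj q a ∧ G.Adj q b ∧ G.Adj q c ∧ G.Adj q d ∧ G.Adj a b ∧ G.Adj c d

/-- the upper bound `r(F) ≤ 14` -/
def S_UP : Prop := ∀ G : SimpleGraph (Fin 14), Cop G ∨ Cop Gᶜ

end Pool.Agent.Helper36.RM
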