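import Pool.Agent.Helper36.RM.Def

/-!
# Ramsey multiplicity one (MP_62567c_co): the finish

From the upper bound `r(F) ≤ 14` the negation of the conjecture follows: the Paley graph on 13
points has no copy of `F` in either colour, so `r(F) = 14`, and an explicit colouring of `K_14` has
exactly one monochromatic copy of `F`.
-/

set_option autoImplicit false
open SimpleGraph

namespace Pool.Agent.Helper36.RM.FN

/-- the boolean adjacency of the graph `F` on six points -/
def fB (i j : Fin 6) : Bool :=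
  ((![60, 60, 11, 7, 35, 19] : Fin 6 → ℕ) i).testBit j.val

/-- The graph `F`. -/
def FG : SimpleGraph (Fin 6) where
  Adj i j := fB i j = true
  symm := ⟨by unfold fB; decide +kernel⟩
  loopless := ⟨by unfold fB; decide +kernel⟩

instance : DecidableRel FG.Adj := fun i j => inferInstanceAs (Decidable (fB i j = true))

theorem cop_iff_cont {V : Type} (G : SimpleGraph V) : Cop G ↔ FG.IsContained G := by
  constructor
  · rintro ⟨p, q, a, b, c, d, hpq, hac, had, hbc, hbd, pa, pb, pc, pd, qa, qb, qc, qd, ab, cd⟩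
    have h1 := pa.ne
    have h2 := pb.ne
    have h3 := pc.ne
    have h4 := pd.ne
    have h5 := qa.ne
    have h6 := qb.ne
    have h7 := qc.ne
    have h8 := qd.ne
    have h9 := ab.ne
    have h10 := cd.ne
    refine ⟨⟨⟨![p, q, a, b, c, d], ?_⟩, ?_⟩⟩
    · intro i j hij
      change fB i j = true at hij
      fin_cases i <;> fin_cases j <;>
        first
          | (exact absurd hij (by decide))
          | (simp; first | assumption | (apply SimpleGraph.Adj.symm; assumption))
    · intro i j hij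
      change (![p, q, a, b, c, d] : Fin 6 → V) i = (![p, q, a, b, c, d] : Fin 6 → V) j at hij
      fin_cases i <;> fin_cases j <;> simp at hij ⊢ <;>
        first
          | exact absurd hij (by assumption)
          | exact absurd hij.symm (by assumption)
  · rintro ⟨f⟩
    have hadj : ∀ i j : Fin 6, fB i j = true → G.Adj (f i) (f j) :=
      fun i j h => f.toHom.map_adj (show FG.Adj i j from h)
    have hne : ∀ i j : Fin 6, i ≠ j → f i ≠ f j := fun i j h h' => h (f.injective h')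
    refine ⟨f 0, f 1, f 2, f 3, f 4, f 5, hne _ _ (by decide), hne _ _ (by decide),
      hne _ _ (by decide), hne _ _ (by decide), hne _ _ (by decide), ?_⟩
    refine ⟨?_, ?_, ?_, ?_, ?_, ?_, ?_, ?_, ?_, ?_⟩ <;> exact hadj _ _ (by decide +kernel)

theorem cop_iff_sub {V : Type} (G : SimpleGraph V) :
    Cop G ↔ ∃ H : G.Subgraph, Nonempty (H.coe ≃g FG) := by
  rw [cop_iff_cont, isContained_iff_exists_iso_subgraph]
  constructor
  · rintro ⟨H, ⟨e⟩⟩
    exact ⟨H, ⟨e.symm⟩⟩
  · rintro ⟨H, ⟨e⟩⟩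
    exact ⟨H, ⟨e.symm⟩⟩

theorem cop_mono {V W : Type} (G : SimpleGraph V) (K : SimpleGraph W) (f : V → W)
    (hf : Function.Injective f) (h : ∀ x y, G.Adj x y → K.Adj (f x) (f y)) (hc : Cop G) : Cop K := by
  rw [cop_iff_cont] at hc ⊢
  obtain ⟨c⟩ := hc
  exact ⟨⟨⟨fun i => f (c i), fun {i j} hij => h _ _ (c.toHom.map_adj hij)⟩,
    fun i j hij => c.injective (hf hij)⟩⟩

/-- no copy, in a form which is quick to decide -/
def NoB (n : ℕ) (e : Fin n → Fin n → Bool) : Prop :=
  ∀ p q : Fin n, p ≠ q → ∀ a : Fin n, e p a = true → e q a = true →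
    ∀ b : Fin n, e p b = true → e q b = true → e a b = true →
    ∀ c : Fin n, e p c = true → e q c = true → a ≠ c → b ≠ c →
    ∀ d : Fin n, e p d = true → e q d = true → a ≠ d → b ≠ d → e c d = false

/-- the same as a boolean -/
def NoBB (n : ℕ) (e : Fin n → Fin n → Bool) : Bool :=
  (List.finRange n).all fun p => (List.finRange n).all fun q => (p == q) ||
    (List.finRange n).all fun a => !(e p a && e q a) ||
    (List.finRange n).all fun b => !(e p b && e q b && e a b) ||
    (List.finRange n).all fun c => !(e p c && e q c && (a != c) && (b != c)) ||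
    (List.finRange n).all fun d => !(e p d && e q d && (a != d) && (b != d) && e c d)

theorem NoB_of (n : ℕ) (e : Fin n → Fin n → Bool) (h : NoBB n e = true) : NoB n e := by
  intro p q hpq a h1 h2 b h3 h4 h5 c h6 h7 h8 h9 d h10 h11 h12 h13
  unfold NoBB at h
  rw [List.all_eq_true] at h
  have H1 := h p (List.mem_finRange p)
  rw [List.all_eq_true] at H1
  have H2 := H1 q (List.mem_finRange q)
  rw [Bool.or_eq_true] at H2
  have H3 := H2.resolve_left (by simpa using hpq)
  rw [List.all_eq_true] at H3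
  have H4 := H3 a (List.mem_finRange a)
  simp only [h1, h2, Bool.and_self, Bool.not_true, Bool.false_or] at H4
  rw [List.all_eq_true] at H4
  have H5 := H4 b (List.mem_finRange b)
  simp only [h3, h4, h5, Bool.and_self, Bool.not_true, Bool.false_or] at H5
  rw [List.all_eq_true] at H5
  have H6 := H5 c (List.mem_finRange c)
  have e1 : (a != c) = true := by simpa using h8
  have e2 : (b != c) = true := by simpa using h9
  simp only [h6, h7, e1, e2, Bool.and_self, Bool.not_true, Bool.false_or] at H6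
  rw [List.all_eq_true] at H6
  have H7 := H6 d (List.mem_finRange d)
  have e3 : (a != d) = true := by simpa using h12
  have e4 : (b != d) = true := by simpa using h13
  simpa only [h10, h11, e3, e4, Bool.and_self, Bool.true_and, Bool.not_eq_true'] using H7

theorem no_of_NoB (n : ℕ) (e : Fin n → Fin n → Bool) (G : SimpleGraph (Fin n))
    (hG : ∀ i j, G.Adj i j → e i j = true) (h : NoB n e) : ¬ Cop G := by
  rintro ⟨p, q, a, b, c, d, hpq, hac, had, hbc, hbd, pa, pb, pc, pd, qa, qb, qc, qd, ab, cd⟩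
  have h1 := h p q hpq a (hG _ _ pa) (hG _ _ qa) b (hG _ _ pb) (hG _ _ qb) (hG _ _ ab)
    c (hG _ _ pc) (hG _ _ qc) hac hbc d (hG _ _ pd) (hG _ _ qd) had hbd
  rw [hG _ _ cd] at h1
  exact absurd h1 (by decide)

/-- the quadratic residues modulo 13, as a bit mask: 1, 3, 4, 9, 10, 12 -/
def palB (i j : Fin 13) : Bool := (5658 : ℕ).testBit (i - j).val

def palBc (i j : Fin 13) : Bool := (2532 : ℕ).testBit (i - j).val

theorem pal_no : NoB 13 palB := NoB_of _ _ (by decide +kernel)

theorem palc_no : NoB 13 palBc := NoB_of _ _ (by decide +kernel)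

/-- the Paley graph on 13 points -/
def PG : SimpleGraph (Fin 13) where
  Adj i j := palB i j = true
  symm := ⟨by unfold palB; decide +kernel⟩
  loopless := ⟨by unfold palB; decide +kernel⟩

theorem PG_no : ¬ Cop PG := no_of_NoB 13 palB PG (fun _ _ h => h) pal_no

theorem PGc_no : ¬ Cop PGᶜ := by
  refine no_of_NoB 13 palBc PGᶜ ?_ palc_no
  intro i j h
  rw [SimpleGraph.compl_adj] at h
  have key : ∀ i j : Fin 13, i ≠ j → ¬ (palB i j = true) → palBc i j = true := by
    unfold palB palBc; decide +kernel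
  exact key i j h.1 h.2

/-- for `p < 14` there is a colouring without monochromatic `F` -/
theorem low (p : ℕ) (hp : p < 14) : ∃ G : SimpleGraph (Fin p), ¬ Cop G ∧ ¬ Cop Gᶜ := by
  have hp' : p ≤ 13 := by omega
  refine ⟨PG.comap (Fin.castLE hp'), ?_, ?_⟩
  · intro h
    exact PG_no (cop_mono _ _ (Fin.castLE hp') (Fin.castLE_injective hp') (fun _ _ h => h) h)
  · intro h
    refine PGc_no (cop_mono _ _ (Fin.castLE hp') (Fin.castLE_injective hp') ?_ h)
    intro x y hxy
    rw [SimpleGraph.compl_adj] at hxy ⊢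
    exact ⟨fun h => hxy.1 (Fin.castLE_injective hp' h), hxy.2⟩

/-- adjacency bit masks of the colouring of `K_14` -/
def mask : Fin 14 → ℕ :=
  ![3278, 8561, 8985, 7253, 3342, 3778, 9387, 4961, 12950, 14756, 12409, 4665, 12168, 5958]

def xB (i j : Fin 14) : Bool := (mask i).testBit j.val

def xBc (i j : Fin 14) : Bool := decide (i ≠ j) && !((mask i).testBit j.val)

/-- the colouring of `K_14` -/
def XG : SimpleGraph (Fin 14) where
  Adj i j := xB i j = true
  symm := ⟨by unfold xB mask; decide +kernel⟩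
  loopless := ⟨by unfold xB mask; decide +kernel⟩

theorem xc_no : NoB 14 xBc := NoB_of _ _ (by decide +kernel)

theorem XGc_no : ¬ Cop XGᶜ := by
  refine no_of_NoB 14 xBc XGᶜ ?_ xc_no
  intro i j h
  rw [SimpleGraph.compl_adj] at h
  have key : ∀ i j : Fin 14, i ≠ j → ¬ (xB i j = true) → xBc i j = true := by
    unfold xB xBc mask; decide +kernel
  exact key i j h.1 h.2

/-- the eight labellings of the two edges -/
def edB (a b c d : Fin 14) : Bool :=
  ([[2, 13, 7, 12], [2, 13, 12, 7], [13, 2, 7, 12], [13, 2, 12, 7],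
   [7, 12, 2, 13], [7, 12, 13, 2], [12, 7, 2, 13], [12, 7, 13, 2]] : List (List (Fin 14))).contains
    [a, b, c, d]

theorem x_uniq : ∀ p q : Fin 14, p ≠ q → ∀ a : Fin 14, xB p a = true → xB q a = true →
    ∀ b : Fin 14, xB p b = true → xB q b = true → xB a b = true →
    ∀ c : Fin 14, xB p c = true → xB q c = true → a ≠ c → b ≠ c →
    ∀ d : Fin 14, xB p d = true → xB q d = true → a ≠ d → b ≠ d → xB c d = true →
      ((p = 8 ∧ q = 9) ∨ (p = 9 ∧ q = 8)) ∧ edB a b c d = true := by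
  unfold xB mask edB; decide +kernel

/-- the copy in `XG` -/
theorem XG_cop : Cop XG := by
  refine ⟨8, 9, 2, 13, 7, 12, ?_⟩
  refine ⟨by decide, by decide, by decide, by decide, by decide, ?_⟩
  change xB 8 2 = true ∧ xB 8 13 = true ∧ xB 8 7 = true ∧ xB 8 12 = true ∧ xB 9 2 = true ∧
    xB 9 13 = true ∧ xB 9 7 = true ∧ xB 9 12 = true ∧ xB 2 13 = true ∧ xB 7 12 = true
  unfold xB mask
  decide +kernel

/-- the edges of the unique copy -/
def tB (x y : Fin 14) : Bool :=
  (x == 8 || x == 9) && (y == 2 || y == 13 || y == 7 || y == 12) ||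
  (y == 8 || y == 9) && (x == 2 || x == 13 || x == 7 || x == 12) ||
  (x == 2 && y == 13) || (x == 13 && y == 2) || (x == 7 && y == 12) || (x == 12 && y == 7)

/-- the vertices of the unique copy -/
def vB (x : Fin 14) : Bool :=
  x == 8 || x == 9 || x == 2 || x == 13 || x == 7 || x == 12

theorem tab : ∀ p q : Fin 14, ((p = 8 ∧ q = 9) ∨ (p = 9 ∧ q = 8)) → ∀ a b c d : Fin 14,
    edB a b c d = true →
    (∀ x : Fin 14, (∃ i : Fin 6, (![p, q, a, b, c, d] : Fin 6 → Fin 14) i = x) ↔ vB x = true) ∧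
    (∀ x y : Fin 14, (∃ i j : Fin 6, fB i j = true ∧ (![p, q, a, b, c, d] : Fin 6 → Fin 14) i = x ∧
      (![p, q, a, b, c, d] : Fin 6 → Fin 14) j = y) ↔ tB x y = true) := by
  intro p q hpq a b c d h
  have h2 := h
  unfold edB at h2
  simp only [List.contains_eq_mem, List.mem_cons, List.cons.injEq, and_true, List.not_mem_nil,
    or_false, decide_eq_true_eq] at h2
  rcases hpq with ⟨rfl, rfl⟩ | ⟨rfl, rfl⟩ <;>
  rcases h2 with ⟨rfl, rfl, rfl, rfl⟩ | ⟨rfl, rfl, rfl, rfl⟩ | ⟨rfl, rfl, rfl, rfl⟩ |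
    ⟨rfl, rfl, rfl, rfl⟩ | ⟨rfl, rfl, rfl, rfl⟩ | ⟨rfl, rfl, rfl, rfl⟩ | ⟨rfl, rfl, rfl, rfl⟩ |
    ⟨rfl, rfl, rfl, rfl⟩ <;>
  (unfold fB tB vB; exact ⟨by decide +kernel, by decide +kernel⟩)

theorem XG_sub (H : XG.Subgraph) (hH : Nonempty (H.coe ≃g FG)) :
    (∀ x, x ∈ H.verts ↔ vB x = true) ∧ ∀ x y, H.Adj x y ↔ tB x y = true := by
  obtain ⟨e⟩ := hH
  have hadj : ∀ i j : Fin 6, FG.Adj i j → H.Adj (e.symm i : Fin 14) (e.symm j : Fin 14) := by
    intro i j hij
    exact (e.symm.map_adj_iff (v := i) (w := j)).2 hij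
  have hX : ∀ i j : Fin 6, fB i j = true → xB (e.symm i : Fin 14) (e.symm j : Fin 14) = true :=
    fun i j hij => (hadj i j hij).adj_sub
  have hne : ∀ i j : Fin 6, i ≠ j → (e.symm i : Fin 14) ≠ (e.symm j : Fin 14) := by
    intro i j hij h
    exact hij (e.symm.injective (Subtype.ext h))
  have hu := x_uniq (e.symm 0 : Fin 14) (e.symm 1 : Fin 14) (hne _ _ (by decide))
    (e.symm 2 : Fin 14) (hX _ _ (by decide +kernel)) (hX _ _ (by decide +kernel))
    (e.symm 3 : Fin 14) (hX _ _ (by decide +kernel)) (hX _ _ (by decide +kernel))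
    (hX _ _ (by decide +kernel))
    (e.symm 4 : Fin 14) (hX _ _ (by decide +kernel)) (hX _ _ (by decide +kernel))
    (hne _ _ (by decide)) (hne _ _ (by decide))
    (e.symm 5 : Fin 14) (hX _ _ (by decide +kernel)) (hX _ _ (by decide +kernel))
    (hne _ _ (by decide)) (hne _ _ (by decide)) (hX _ _ (by decide +kernel))
  have ht := tab _ _ hu.1 _ _ _ _ hu.2
  have hf : ∀ i : Fin 6, (![(e.symm 0 : Fin 14), (e.symm 1 : Fin 14), (e.symm 2 : Fin 14),
      (e.symm 3 : Fin 14), (e.symm 4 : Fin 14), (e.symm 5 : Fin 14)] : Fin 6 → Fin 14) i =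
      (e.symm i : Fin 14) := by
    intro i
    fin_cases i <;> rfl
  simp only [hf] at ht
  refine ⟨fun x => ?_, fun x y => ?_⟩
  · rw [← ht.1 x]
    constructor
    · intro hx
      exact ⟨e ⟨x, hx⟩, by rw [e.symm_apply_apply]⟩
    · rintro ⟨i, rfl⟩
      exact (e.symm i).2
  · rw [← ht.2 x y]
    constructor
    · intro hxy
      refine ⟨e ⟨x, hxy.fst_mem⟩, e ⟨y, hxy.snd_mem⟩, ?_, by rw [e.symm_apply_apply],
        by rw [e.symm_apply_apply]⟩
      have : FG.Adj (e ⟨x, hxy.fst_mem⟩) (e ⟨y, hxy.snd_mem⟩) := e.map_adj_iff.2 hxy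
      exact this
    · rintro ⟨i, j, hij, rfl, rfl⟩
      exact hadj i j hij

theorem XG_count : {H : XG.Subgraph | Nonempty (H.coe ≃g FG)}.ncard = 1 := by
  obtain ⟨H0, h0⟩ := (cop_iff_sub XG).1 XG_cop
  rw [Set.ncard_eq_one]
  refine ⟨H0, ?_⟩
  ext H
  simp only [Set.mem_ofPred_eq, Set.mem_singleton_iff]
  constructor
  · intro hH
    have h1 := XG_sub H hH
    have h2 := XG_sub H0 h0
    refine SimpleGraph.Subgraph.ext ?_ ?_
    · ext x
      rw [h1.1 x, h2.1 x]
    · ext x y
      rw [h1.2 x y, h2.2 x y]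
  · rintro rfl
    exact h0

theorem XGc_count : {H : XGᶜ.Subgraph | Nonempty (H.coe ≃g FG)}.ncard = 0 := by
  have h : {H : XGᶜ.Subgraph | Nonempty (H.coe ≃g FG)} = ∅ := by
    ext H
    simp only [Set.mem_ofPred_eq, Set.mem_empty_iff_false, iff_false]
    intro h
    exact XGc_no ((cop_iff_sub _).2 ⟨H, h⟩)
  rw [h, Set.ncard_empty]

theorem ramsey (hup : S_UP) : sInf {p : ℕ | ∀ G : SimpleGraph (Fin p),
    (∃ H : G.Subgraph, Nonempty (H.coe ≃g FG)) ∨
    (∃ H : Gᶜ.Subgraph, Nonempty (H.coe ≃g FG))} = 14 := by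
  have hmem : (14 : ℕ) ∈ {p : ℕ | ∀ G : SimpleGraph (Fin p),
      (∃ H : G.Subgraph, Nonempty (H.coe ≃g FG)) ∨
      (∃ H : Gᶜ.Subgraph, Nonempty (H.coe ≃g FG))} := by
    intro G
    rw [← cop_iff_sub, ← cop_iff_sub]
    exact hup G
  refine le_antisymm (Nat.sInf_le hmem) ?_
  refine le_csInf ⟨14, hmem⟩ ?_
  intro p hp
  by_contra hlt
  obtain ⟨G, h1, h2⟩ := low p (by omega)
  have h3 := hp G
  rw [← cop_iff_sub, ← cop_iff_sub] at h3
  exact h3.elim h1 h2

theorem FG_not_K2 : ¬ Nonempty (FG ≃g (⊤ : SimpleGraph (Fin 2))) := by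
  rintro ⟨e⟩
  have h := Fintype.card_congr e.toEquiv
  simp at h

theorem FG_not_star (n : ℕ) (hn : Even n)
    (h : Nonempty (FG ≃g completeBipartiteGraph (Fin 1) (Fin n))) : False := by
  obtain ⟨e⟩ := h
  have h := Fintype.card_congr e.toEquiv
  simp at h
  obtain ⟨k, hk⟩ := hn
  omega

theorem fin (hup : S_UP) :
    ¬ (∀ (V : Type) [Fintype V] (F : SimpleGraph V), Nonempty V → (∀ v : V, ∃ w : V, F.Adj v w) →
      ((∃ G : SimpleGraph (Fin (sInf {p : ℕ | ∀ G : SimpleGraph (Fin p),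
            (∃ H : G.Subgraph, Nonempty (H.coe ≃g F)) ∨
            (∃ H : Gᶜ.Subgraph, Nonempty (H.coe ≃g F))})),
          {H : G.Subgraph | Nonempty (H.coe ≃g F)}.ncard +
            {H : Gᶜ.Subgraph | Nonempty (H.coe ≃g F)}.ncard = 1) ↔
        (Nonempty (F ≃g (⊤ : SimpleGraph (Fin 2))) ∨
          ∃ n : ℕ, 0 < n ∧ Even n ∧
            Nonempty (F ≃g completeBipartiteGraph (Fin 1) (Fin n))))) := by
  intro h
  have hiso : ∀ v : Fin 6, ∃ w : Fin 6, FG.Adj v w := by
    have : ∀ v : Fin 6, ∃ w : Fin 6, fB v w = true := by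
      unfold fB; decide +kernel
    exact this
  have h1 := h (Fin 6) FG ⟨0⟩ hiso
  rw [ramsey hup] at h1
  have h2 := h1.1 ⟨XG, by rw [XG_count, XGc_count]⟩
  rcases h2 with h2 | ⟨n, -, hn, h2⟩
  · exact FG_not_K2 h2
  · exact FG_not_star n hn h2

end Pool.Agent.Helper36.RM.FN
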