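import Pool.Agent.Helper36.RM.Snd

/-!
# Ramsey multiplicity one (MP_62567c_co): soundness of the checker, second part
-/

set_option autoImplicit false

namespace Pool.Agent.Helper36.RM

section
variable {c : Fin 14 → Fin 14 → Bool} {col : Bool} {φ : Nat → Fin 14} {n A T V w S : Nat}
  {P : Fin 14 → Prop}

/-- the placed neighbours of `φ u` -/
def pl (c : Fin 14 → Fin 14 → Bool) (col : Bool) (φ : Nat → Fin 14) (n u : Nat) : Finset Nat :=
  (Finset.range n).filter fun i => ad c col (φ u) (φ i)

theorem cnt_eq_pl (hTab : S_TAB) (hn : n ≤ 13) (henc : Enc c col φ n A) {u : Nat} (hu : u < 16) :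
    cnt A (16 * u) = if u < n then (pl c col φ n u).card else 0 := by
  have hbit : ∀ i, (Nat.land (Nat.shiftRight A (16 * u)) 65535).testBit i = true ↔
      i < n ∧ u < n ∧ ad c col (φ u) (φ i) := by
    intro i
    have h1 : (Nat.land (Nat.shiftRight A (16 * u)) 65535).testBit i =
        (A.testBit (16 * u + i) && decide (i < 16)) := by
      show ((A >>> (16 * u)) &&& (2 ^ 16 - 1)).testBit i = _
      rw [Nat.testBit_and, Nat.testBit_shiftRight, Nat.testBit_two_pow_sub_one]
    rw [h1]
    by_cases hi : i < 16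
    · simp only [hi, decide_true, Bool.and_true]
      rw [henc u i hu hi]
      tauto
    · simp only [hi, decide_false, Bool.and_false, Bool.false_eq_true, false_iff]
      omega
  have hr : Nat.land (Nat.shiftRight A (16 * u)) 65535 < 8192 := by
    have : Nat.land (Nat.shiftRight A (16 * u)) 65535 < 2 ^ 13 := by
      apply Nat.lt_pow_two_of_testBit
      intro i hi
      cases h : (Nat.land (Nat.shiftRight A (16 * u)) 65535).testBit i with
      | false => rfl
      | true => exact absurd ((hbit i).1 h).1 (by omega)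
    simpa using this
  have h := hTab.cnt _ hr
  show Nat.land (Nat.shiftRight pcT (Nat.mul 4 (Nat.land (Nat.shiftRight A (16 * u)) 65535))) 15 = _
  rw [h]
  split_ifs with hun
  · congr 1
    ext i
    simp only [Finset.mem_filter, Finset.mem_range, pl]
    rw [hbit]
    constructor
    · rintro ⟨_, h2, _, h4⟩
      exact ⟨h2, h4⟩
    · rintro ⟨h2, h4⟩
      exact ⟨by omega, h2, hun, h4⟩
  · rw [Finset.card_eq_zero, Finset.filter_eq_empty_iff]
    intro i _ h2
    exact hun ((hbit i).1 h2).2.1

/-- the placed neighbours are neighbours -/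
theorem pl_card_lt (hinj : Inj φ n) {u : Nat} {x : Fin 14} (hx : ∀ i, i < n → φ i ≠ x)
    (had : ad c col (φ u) x) : (pl c col φ n u).card < dg c col (φ u) := by
  have h1 : ((pl c col φ n u).image φ).card = (pl c col φ n u).card := by
    apply Finset.card_image_of_injOn
    intro i hi j hj hij
    have hi' := (Finset.mem_filter.1 (Finset.mem_coe.1 hi)).1
    have hj' := (Finset.mem_filter.1 (Finset.mem_coe.1 hj)).1
    exact hinj i j (Finset.mem_range.1 hi') (Finset.mem_range.1 hj') hij
  rw [← h1]
  apply Finset.card_lt_card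
  refine ⟨?_, ?_⟩
  · intro y hy
    obtain ⟨i, hi, rfl⟩ := Finset.mem_image.1 hy
    exact Finset.mem_filter.2 ⟨Finset.mem_univ _, (Finset.mem_filter.1 hi).2⟩
  · intro hsub
    have hmem : x ∈ (Finset.univ.filter fun y => ad c col (φ u) y) :=
      Finset.mem_filter.2 ⟨Finset.mem_univ _, had⟩
    obtain ⟨i, hi, hix⟩ := Finset.mem_image.1 (hsub hmem)
    exact hx i (Finset.mem_range.1 (Finset.mem_filter.1 hi).1) hix

/-- if no remaining vertex is a neighbour then all neighbours are placed -/
theorem dg_le_pl {u : Nat} (hno : ∀ x, (∀ i, i < n → φ i ≠ x) → ¬ ad c col (φ u) x) :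
    dg c col (φ u) ≤ (pl c col φ n u).card := by
  have h1 : (Finset.univ.filter fun y => ad c col (φ u) y) ⊆ (pl c col φ n u).image φ := by
    intro y hy
    have hy' := (Finset.mem_filter.1 hy).2
    by_contra hcon
    refine hno y ?_ hy'
    intro i hi hiy
    exact hcon (Finset.mem_image.2 ⟨i, Finset.mem_filter.2 ⟨Finset.mem_range.2 hi,
      by rw [hiy]; exact hy'⟩, hiy⟩)
  exact (Finset.card_le_card h1).trans Finset.card_image_le

theorem dg_add (c : Fin 14 → Fin 14 → Bool) (x : Fin 14) : dg c true x + dg c false x = 13 := by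
  unfold dg
  have h1 : (Finset.univ.filter fun y => ad c true x y) ∪
      (Finset.univ.filter fun y => ad c false x y) = Finset.univ.erase x := by
    ext y
    simp only [Finset.mem_union, Finset.mem_filter, Finset.mem_univ, true_and, Finset.mem_erase,
      and_true, ad]
    constructor
    · rintro (⟨h, _⟩ | ⟨h, _⟩) <;> exact fun h' => h h'.symm
    · intro h
      cases hc : c x y
      · right; exact ⟨fun h' => h h'.symm, rfl⟩
      · left; exact ⟨fun h' => h h'.symm, rfl⟩
  rw [← Finset.card_union_of_disjoint, h1, Finset.card_erase_of_mem (Finset.mem_univ _),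
    Finset.card_univ, Fintype.card_fin]
  rw [Finset.disjoint_left]
  intro y hy hy'
  have a := (Finset.mem_filter.1 hy).2.2
  have b := (Finset.mem_filter.1 hy').2.2
  rw [a] at b
  exact absurd b (by simp)

theorem pd_main {DEG : Nat} {k : Nat → Nat → Nat} (hTab : S_TAB) (hD : 0 < DEG)
    (hdeg : ∀ x, dg c col x ≤ DEG) (hn : n ≤ 13)
    (hinj : Inj φ n) (henc : Enc c col φ n A) (hT : Tab col n T) (hV : Vis c φ n P V)
    (hk : ∀ V', Vis c φ n P V' → k V' S = 0) : pD DEG n A T V w S k = 0 := by
  unfold pD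
  apply cond_zero; intro h1
  rw [frc_eq]
  have h1' := Nat.le_of_ble_eq_true h1
  rw [land240, cnt_eq_pl hTab hn henc (nb_lt w 4)] at h1'
  apply hk
  intro x hx hP
  have hVx := hV x hx hP
  split_ifs at h1' with hun
  · show (V ^^^ (V &&& (Nat.shiftRight T (Nat.shiftLeft (nb w 4) n)))).testBit
      (row c φ x n) = true
    rw [Nat.testBit_xor, Nat.testBit_and, hVx, tab_row hT hun]
    rw [Bool.true_and]
    apply xor_cut
    intro h5
    simp only [beq_iff_eq] at h5
    have := pl_card_lt hinj hx ⟨hx _ hun, h5⟩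
    have := hdeg (φ (nb w 4))
    omega
  · omega

theorem pn_main {DEG d0 : Nat} (hTab : S_TAB) (hnpos : 0 < n)
    (hdeg : ∀ col x, dg c col x ≤ DEG) (hdeg0 : d0 ≤ dg c true (φ 0)) (hn : n ≤ 13)
    (henc : Enc c col φ n A) (hT : Tab col n T)
    (hV : Vis c φ n (fun _ => True) V) : pN DEG d0 n A T V w S col = 0 := by
  unfold pN
  apply cond_zero; intro h1
  apply cond_zero; intro h2
  have h1' : V &&& (Nat.shiftRight T (Nat.shiftLeft (nb w 4) n)) = 0 := Nat.eq_of_beq_eq_true h1
  have h2' : nb w 4 < n := Nat.le_of_ble_eq_true h2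
  have hno : ∀ x, (∀ i, i < n → φ i ≠ x) → ¬ ad c col (φ (nb w 4)) x := by
    intro x hx had
    have hVx := hV x hx trivial
    have h3 : (V &&& (Nat.shiftRight T (Nat.shiftLeft (nb w 4) n))).testBit (row c φ x n) =
        false := by rw [h1']; exact Nat.zero_testBit _
    rw [Nat.testBit_and, hVx, tab_row hT h2', had.2] at h3
    simp at h3
  have hle := dg_le_pl hno
  have hcnt := cnt_eq_pl hTab hn henc (nb_lt w 4)
  rw [if_pos h2'] at hcnt
  rw [← hcnt] at hle
  rw [land240]
  have hsum := dg_add c (φ (nb w 4))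
  have hlow : 13 ≤ dg c col (φ (nb w 4)) + DEG := by
    cases col
    · have := hdeg true (φ (nb w 4)); omega
    · have := hdeg false (φ (nb w 4)); omega
  cases h3 : Nat.ble (Nat.succ (Nat.add (cnt A (16 * nb w 4)) DEG)) 13 with
  | true =>
    exfalso
    have h3' := Nat.le_of_ble_eq_true h3
    have h4 : Nat.add (cnt A (16 * nb w 4)) DEG = cnt A (16 * nb w 4) + DEG := rfl
    rw [h4] at h3'
    omega
  | false =>
    show cond _ _ 0 = 0
    apply cond_zero; intro h4
    exfalso
    simp only [Bool.and_eq_true] at h4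
    obtain ⟨h5, h6, h7⟩ := h4
    have h6' := Nat.eq_of_beq_eq_true h6
    have h7' := Nat.le_of_ble_eq_true h7
    have h8 : nb w 4 = 0 := by omega
    rw [h8] at hle
    rw [h5] at hle
    have h9 : cnt A 0 = cnt A (16 * 0) := rfl
    rw [h9] at h7'
    omega

end

end Pool.Agent.Helper36.RM
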