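import Pool.Agent.Helper36.RM.Def
import Pool.Agent.Helper36.RM.Go

/-!
# Ramsey multiplicity one (MP_62567c_co): the interfaces of the modules
-/

set_option autoImplicit false

namespace Pool.Agent.Helper36.RM

/-- adjacency in the colour -/
@[reducible] def ad (c : Fin 14 → Fin 14 → Bool) (col : Bool) (x y : Fin 14) : Prop :=
  x ≠ y ∧ c x y = col

/-- a symmetric colouring without monochromatic `F` -/
structure Bad (c : Fin 14 → Fin 14 → Bool) : Prop where
  symm : ∀ x y, c x y = c y x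
  free : ∀ (col : Bool) (p q a b d e : Fin 14), p ≠ q → a ≠ d → a ≠ e → b ≠ d → b ≠ e →
    ad c col p a → ad c col p b → ad c col p d → ad c col p e →
    ad c col q a → ad c col q b → ad c col q d → ad c col q e →
    ad c col a b → ad c col d e → False

/-- the degree in the colour -/
def dg (c : Fin 14 → Fin 14 → Bool) (col : Bool) (x : Fin 14) : Nat :=
  (Finset.univ.filter fun y => ad c col x y).card

/-- the row of `w` relative to the placed vertices -/
def row (c : Fin 14 → Fin 14 → Bool) (φ : Nat → Fin 14) (w : Fin 14) : Nat → Nat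
  | 0 => 0
  | n + 1 => row c φ w n + (c (φ n) w).toNat * 2 ^ n

/-- `A` is the packed adjacency matrix of `φ 0, …, φ (n - 1)` in the colour -/
def Enc (c : Fin 14 → Fin 14 → Bool) (col : Bool) (φ : Nat → Fin 14) (n A : Nat) : Prop :=
  ∀ i j, i < 16 → j < 16 → (A.testBit (16 * i + j) = true ↔ i < n ∧ j < n ∧ ad c col (φ i) (φ j))

/-- the vertices `φ 0, …, φ (n - 1)` are different -/
def Inj (φ : Nat → Fin 14) (n : Nat) : Prop := ∀ i j, i < n → j < n → φ i = φ j → i = j

/-- the packed table -/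
def Tab (col : Bool) (n T : Nat) : Prop :=
  ∀ u r, u < n → r < 2 ^ n → T.testBit (u * 2 ^ n + r) = (r.testBit u == col)

/-- every remaining vertex with the property has its row in `V` -/
def Vis (c : Fin 14 → Fin 14 → Bool) (φ : Nat → Fin 14) (n : Nat) (P : Fin 14 → Prop)
    (V : Nat) : Prop :=
  ∀ w, (∀ i, i < n → φ i ≠ w) → P w → V.testBit (row c φ w n) = true

/-- the rooted colouring `A` has no extension -/
def Dead (DEG d0 n A : Nat) : Prop :=
  ∀ c, Bad c → (∀ col x, dg c col x ≤ DEG) → ∀ φ : Nat → Fin 14, Inj φ n →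
    d0 ≤ dg c true (φ 0) → Enc c true φ n A → False

/-- packed off-diagonal matrices -/
def off : Nat → Nat
  | 8 => 0x7f00bf00df00ef00f700fb00fd00fe
  | 9 => 0xff017f01bf01df01ef01f701fb01fd01fe
  | _ => 0

/-- MODULE TAB: the tables -/
structure S_TAB : Prop where
  tabR : ∀ n, 0 < n → n ≤ 13 → Tab true n (tabR n)
  tabB : ∀ n, 0 < n → n ≤ 13 → Tab false n (tabB n)
  cnt : ∀ r, r < 8192 → Nat.land (Nat.shiftRight pcT (Nat.mul 4 r)) 15 =
    ((Finset.range 13).filter fun i => r.testBit i = true).card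
  spread : ∀ s, s < 8192 → ∀ k, (spread s).testBit k = (decide (k % 16 = 0) && s.testBit (k / 16))
  off : ∀ n, n = 8 ∨ n = 9 → ∀ i j, i < 16 → j < 16 →
    (off n).testBit (16 * i + j) = (decide (i < n) && decide (j < n) && !decide (i = j))

/-- MODULE PA -/
def S_PA : Prop := ∀ (c : Fin 14 → Fin 14 → Bool) (col : Bool) (φ : Nat → Fin 14)
  (n A T V w S : Nat) (k : Nat → Nat → Nat) (P : Fin 14 → Prop), Bad c → n ≤ 13 → Inj φ n →
  Enc c col φ n A → Tab col n T → Vis c φ n P V → (∀ V', Vis c φ n P V' → k V' S = 0) →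
  pA n A T V w S k = 0

/-- MODULE PB -/
def S_PB : Prop := ∀ (c : Fin 14 → Fin 14 → Bool) (col : Bool) (φ : Nat → Fin 14)
  (n A T V w S : Nat) (k : Nat → Nat → Nat) (P : Fin 14 → Prop), Bad c → n ≤ 13 → Inj φ n →
  Enc c col φ n A → Tab col n T → Vis c φ n P V → (∀ V', Vis c φ n P V' → k V' S = 0) →
  pB n A T V w S k = 0

/-- MODULE TOP: the final argument. `ent m j` is the `j`-th code of the list of the rooted
colourings (a vertex with `m` neighbours in the colour 1) -/
def S_TOP : Prop := ∀ (ent : Nat → Nat → Nat) (siz : Nat → Nat),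
  (∀ c, Bad c → ∀ (v : Fin 14) (m : Nat), (m = 7 ∨ m = 8) → m ≤ dg c true v →
    ∃ j φ, j < siz m ∧ φ 0 = v ∧ Inj φ (m + 1) ∧ Enc c true φ (m + 1) (ent m j)) →
  (∀ j, j < siz 7 → Dead 7 7 8 (ent 7 j)) →
  (∀ j, j < siz 8 → Dead 8 8 9 (ent 8 j)) →
  (∀ j, j < siz 8 → Dead 13 9 9 (ent 8 j)) → S_UP

end Pool.Agent.Helper36.RM
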