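import Pool.Agent.Helper36.RM.Snd

/-!
# Ramsey multiplicity one (MP_62567c_co): the tables
-/

set_option autoImplicit false
set_option maxRecDepth 1000000

namespace Pool.Agent.Helper36.RM

/-- a Boolean loop -/
@[reducible] noncomputable def loop (N : Nat) (f : Nat → Bool) : Bool :=
  Nat.rec true (fun k ih => cond (f k) ih false) N

theorem loop_true {N : Nat} {f : Nat → Bool} (h : loop N f = true) : ∀ k, k < N → f k = true := by
  induction N with
  | zero => intro k hk; omega
  | succ N ih =>
    have h' : cond (f N) (loop N f) false = true := h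
    cases hN : f N with
    | false => rw [hN] at h'; exact absurd h' (by simp)
    | true =>
      rw [hN] at h'
      intro k hk
      rcases Nat.lt_or_eq_of_le (Nat.le_of_lt_succ hk) with h1 | h1
      · exact ih h' k h1
      · rw [h1]; exact hN

/-- equality of Booleans -/
@[reducible] def eqb (a b : Bool) : Bool := cond a b (cond b false true)

theorem eqb_true {a b : Bool} (h : eqb a b = true) : a = b := by
  cases a <;> cases b <;> first | rfl | exact absurd h (by simp)

/-- the check of a table -/
@[reducible] noncomputable def chT (n T : Nat) (col : Bool) (N1 N2 : Nat) : Bool :=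
  loop n fun u => loop N1 fun a => loop N2 fun b =>
    frc (Nat.add (Nat.mul a N2) b) fun r =>
      eqb (tb T (Nat.add (Nat.mul u (Nat.pow 2 n)) r)) (eqb (tb r u) col)

theorem chT_tab {n T N1 N2 : Nat} {col : Bool} (h : chT n T col N1 N2 = true) (hN2 : 0 < N2)
    (hN : 2 ^ n = N1 * N2) : Tab col n T := by
  intro u r hu hr
  have hb : r % N2 < N2 := Nat.mod_lt _ hN2
  have ha : r / N2 < N1 := by
    rw [hN] at hr
    exact (Nat.div_lt_iff_lt_mul hN2).2 hr
  have h1 := loop_true (loop_true (loop_true h u hu) (r / N2) ha) (r % N2) hb
  rw [frc_eq] at h1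
  have hr' : Nat.add (Nat.mul (r / N2) N2) (r % N2) = r := Nat.div_add_mod' r N2
  rw [hr'] at h1
  have h2 := eqb_true h1
  rw [tb_eq, tb_eq] at h2
  have h3 : T.testBit (u * 2 ^ n + r) = eqb (r.testBit u) col := h2
  rw [h3]
  cases r.testBit u <;> cases col <;> rfl

theorem r1 : chT 1 (tabR 1) true 1 2 = true := by decide +kernel
theorem r2 : chT 2 (tabR 2) true 2 2 = true := by decide +kernel
theorem r3 : chT 3 (tabR 3) true 2 4 = true := by decide +kernel
theorem r4 : chT 4 (tabR 4) true 4 4 = true := by decide +kernel
theorem r5 : chT 5 (tabR 5) true 4 8 = true := by decide +kernel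
theorem r6 : chT 6 (tabR 6) true 8 8 = true := by decide +kernel
theorem r7 : chT 7 (tabR 7) true 8 16 = true := by decide +kernel
theorem r8 : chT 8 (tabR 8) true 16 16 = true := by decide +kernel
theorem r9 : chT 9 (tabR 9) true 16 32 = true := by decide +kernel
theorem r10 : chT 10 (tabR 10) true 32 32 = true := by decide +kernel
theorem r11 : chT 11 (tabR 11) true 32 64 = true := by decide +kernel
theorem r12 : chT 12 (tabR 12) true 64 64 = true := by decide +kernel
theorem r13 : chT 13 (tabR 13) true 64 128 = true := by decide +kernel

theorem b1 : chT 1 (tabB 1) false 1 2 = true := by decide +kernel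
theorem b2 : chT 2 (tabB 2) false 2 2 = true := by decide +kernel
theorem b3 : chT 3 (tabB 3) false 2 4 = true := by decide +kernel
theorem b4 : chT 4 (tabB 4) false 4 4 = true := by decide +kernel
theorem b5 : chT 5 (tabB 5) false 4 8 = true := by decide +kernel
theorem b6 : chT 6 (tabB 6) false 8 8 = true := by decide +kernel
theorem b7 : chT 7 (tabB 7) false 8 16 = true := by decide +kernel
theorem b8 : chT 8 (tabB 8) false 16 16 = true := by decide +kernel
theorem b9 : chT 9 (tabB 9) false 16 32 = true := by decide +kernel
theorem b10 : chT 10 (tabB 10) false 32 32 = true := by decide +kernel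
theorem b11 : chT 11 (tabB 11) false 32 64 = true := by decide +kernel
theorem b12 : chT 12 (tabB 12) false 64 64 = true := by decide +kernel
theorem b13 : chT 13 (tabB 13) false 64 128 = true := by decide +kernel

/-- the number of bits below `k` -/
@[reducible] noncomputable def pop (r k : Nat) : Nat :=
  Nat.rec 0 (fun i ih => Nat.add ih (Nat.land (Nat.shiftRight r i) 1)) k

theorem bit_val (r i : Nat) : Nat.land (Nat.shiftRight r i) 1 = (r.testBit i).toNat := by
  show (r >>> i) &&& 1 = _
  rw [Nat.and_one_is_mod, Nat.testBit, Nat.one_and_eq_mod_two]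
  rcases Nat.mod_two_eq_zero_or_one (r >>> i) with h | h <;> rw [h] <;> rfl

theorem pop_eq (r k : Nat) : pop r k = ((Finset.range k).filter fun i => r.testBit i = true).card := by
  rw [Finset.card_filter]
  induction k with
  | zero => rfl
  | succ k ih =>
    rw [Finset.sum_range_succ, ← ih]
    show pop r k + Nat.land (Nat.shiftRight r k) 1 = _
    rw [bit_val]
    cases r.testBit k <;> rfl

theorem cnt_chk : (loop 64 fun a => loop 128 fun b => frc (Nat.add (Nat.mul a 128) b) fun r =>
    Nat.beq (Nat.land (Nat.shiftRight pcT (Nat.mul 4 r)) 15) (pop r 13)) = true := by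
  decide +kernel

/-- the spread number, slowly -/
@[reducible] noncomputable def spr (s k : Nat) : Nat :=
  Nat.rec 0 (fun i ih => Nat.lor ih (Nat.shiftLeft (Nat.land (Nat.shiftRight s i) 1)
    (Nat.mul 16 i))) k

theorem spr_testBit (s k j : Nat) : (spr s k).testBit j =
    (decide (j % 16 = 0) && (decide (j / 16 < k) && s.testBit (j / 16))) := by
  induction k with
  | zero => simp [spr]
  | succ k ih =>
    show ((spr s k) ||| ((Nat.land (Nat.shiftRight s k) 1) <<< (16 * k))).testBit j = _
    rw [Nat.testBit_or, Nat.testBit_shiftLeft, ih, bit_val]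
    by_cases h1 : j = 16 * k
    · subst h1
      have h2 : (16 * k) % 16 = 0 := by omega
      have h3 : (16 * k) / 16 = k := by omega
      rw [h2, h3]
      simp only [lt_irrefl, decide_false, Bool.false_and, Bool.and_false, Bool.false_or,
        Nat.sub_self, ge_iff_le, le_refl, decide_true, Bool.true_and, Nat.lt_succ_self]
      cases s.testBit k <;> rfl
    · have h4 : (decide (j ≥ 16 * k) && (s.testBit k).toNat.testBit (j - 16 * k)) = false := by
        by_cases h5 : 16 * k ≤ j
        · have h6 : (s.testBit k).toNat.testBit (j - 16 * k) = false := by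
            apply Nat.testBit_lt_two_pow
            have h7 : 2 ^ 1 ≤ 2 ^ (j - 16 * k) := Nat.pow_le_pow_right (by norm_num) (by omega)
            have h8 : (s.testBit k).toNat ≤ 1 := Bool.toNat_le _
            omega
          rw [h6, Bool.and_false]
        · simp [h5]
      rw [h4, Bool.or_false]
      by_cases h9 : j % 16 = 0
      · have h10 : (j / 16 < k) ↔ (j / 16 < k + 1) := by omega
        simp only [h9, decide_true, Bool.true_and, h10]
      · simp [h9]

theorem spr_chk : (loop 64 fun a => loop 128 fun b => frc (Nat.add (Nat.mul a 128) b) fun s =>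
    Nat.beq (spread s) (spr s 13)) = true := by
  decide +kernel

theorem off_chk : ∀ n, n = 8 ∨ n = 9 → ∀ i, i < 16 → ∀ j, j < 16 →
    (off n).testBit (16 * i + j) = (decide (i < n) && decide (j < n) && !decide (i = j)) := by
  rintro n (rfl | rfl)
  · decide +kernel
  · decide +kernel

theorem tab : S_TAB where
  tabR n h1 h2 := by
    interval_cases n
    · exact chT_tab r1 (by norm_num) (by norm_num)
    · exact chT_tab r2 (by norm_num) (by norm_num)
    · exact chT_tab r3 (by norm_num) (by norm_num)
    · exact chT_tab r4 (by norm_num) (by norm_num)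
    · exact chT_tab r5 (by norm_num) (by norm_num)
    · exact chT_tab r6 (by norm_num) (by norm_num)
    · exact chT_tab r7 (by norm_num) (by norm_num)
    · exact chT_tab r8 (by norm_num) (by norm_num)
    · exact chT_tab r9 (by norm_num) (by norm_num)
    · exact chT_tab r10 (by norm_num) (by norm_num)
    · exact chT_tab r11 (by norm_num) (by norm_num)
    · exact chT_tab r12 (by norm_num) (by norm_num)
    · exact chT_tab r13 (by norm_num) (by norm_num)
  tabB n h1 h2 := by
    interval_cases n
    · exact chT_tab b1 (by norm_num) (by norm_num)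
    · exact chT_tab b2 (by norm_num) (by norm_num)
    · exact chT_tab b3 (by norm_num) (by norm_num)
    · exact chT_tab b4 (by norm_num) (by norm_num)
    · exact chT_tab b5 (by norm_num) (by norm_num)
    · exact chT_tab b6 (by norm_num) (by norm_num)
    · exact chT_tab b7 (by norm_num) (by norm_num)
    · exact chT_tab b8 (by norm_num) (by norm_num)
    · exact chT_tab b9 (by norm_num) (by norm_num)
    · exact chT_tab b10 (by norm_num) (by norm_num)
    · exact chT_tab b11 (by norm_num) (by norm_num)
    · exact chT_tab b12 (by norm_num) (by norm_num)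
    · exact chT_tab b13 (by norm_num) (by norm_num)
  cnt r hr := by
    rw [← pop_eq]
    have h1 := loop_true (loop_true cnt_chk (r / 128) (by omega)) (r % 128) (by omega)
    rw [frc_eq] at h1
    have hr' : Nat.add (Nat.mul (r / 128) 128) (r % 128) = r := Nat.div_add_mod' r 128
    rw [hr'] at h1
    exact Nat.eq_of_beq_eq_true h1
  spread s hs k := by
    have h1 := loop_true (loop_true spr_chk (s / 128) (by omega)) (s % 128) (by omega)
    rw [frc_eq] at h1
    have hr' : Nat.add (Nat.mul (s / 128) 128) (s % 128) = s := Nat.div_add_mod' s 128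
    rw [hr'] at h1
    rw [Nat.eq_of_beq_eq_true h1, spr_testBit]
    by_cases hk : k / 16 < 13
    · simp [hk]
    · have : s.testBit (k / 16) = false := by
        apply Nat.testBit_lt_two_pow
        have : 2 ^ 13 ≤ 2 ^ (k / 16) := Nat.pow_le_pow_right (by norm_num) (by omega)
        omega
      rw [this]
      simp
  off n hn i j hi hj := off_chk n hn i hi j hj

end Pool.Agent.Helper36.RM
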