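import Pool.Agent.Helper36.RM.Stm

/-!
# Ramsey multiplicity one (MP_62567c_co): the final degree argument (module TOP)
-/

set_option autoImplicit false

namespace Pool.Agent.Helper36.RM

namespace TopAux

theorem dg_add (c : Fin 14 → Fin 14 → Bool) (x : Fin 14) :
    dg c true x + dg c false x = 13 := by
  unfold dg
  have h1 : (Finset.univ.filter fun y => ad c true x y) =
      (Finset.univ.filter fun y => x ≠ y).filter fun y => c x y = true := by
    ext y
    simp [ad]
  have h2 : (Finset.univ.filter fun y => ad c false x y) =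
      (Finset.univ.filter fun y => x ≠ y).filter fun y => ¬ (c x y = true) := by
    ext y
    simp [ad]
  rw [h1, h2, Finset.card_filter_add_card_filter_not, Finset.filter_ne]
  rw [Finset.card_erase_of_mem (Finset.mem_univ x)]
  simp

/-- the colouring with the two colours exchanged -/
def fl (c : Fin 14 → Fin 14 → Bool) : Fin 14 → Fin 14 → Bool := fun x y => !(c x y)

theorem ad_fl (c : Fin 14 → Fin 14 → Bool) (col : Bool) (x y : Fin 14) :
    ad (fl c) col x y ↔ ad c (!col) x y := by
  unfold ad fl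
  cases col <;> cases c x y <;> simp

theorem dg_fl (c : Fin 14 → Fin 14 → Bool) (col : Bool) (x : Fin 14) :
    dg (fl c) col x = dg c (!col) x := by
  unfold dg
  congr 1
  ext y
  simp only [Finset.mem_filter, Finset.mem_univ, true_and]
  exact ad_fl c col x y

theorem bad_fl {c : Fin 14 → Fin 14 → Bool} (h : Bad c) : Bad (fl c) := by
  constructor
  · intro x y
    unfold fl
    rw [h.symm x y]
  · intro col p q a b d e h1 h2 h3 h4 h5 h6 h7 h8 h9 h10 h11 h12 h13 h14 h15
    rw [ad_fl] at h6 h7 h8 h9 h10 h11 h12 h13 h14 h15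
    exact h.free (!col) p q a b d e h1 h2 h3 h4 h5 h6 h7 h8 h9 h10 h11 h12 h13 h14 h15

/-- the contradiction for a bad colouring in which a vertex of the colour `true` has the largest
degree -/
theorem main (ent : Nat → Nat → Nat) (siz : Nat → Nat)
    (h0 : ∀ c, Bad c → ∀ (v : Fin 14) (m : Nat), (m = 7 ∨ m = 8) → m ≤ dg c true v →
      ∃ j φ, j < siz m ∧ φ 0 = v ∧ Inj φ (m + 1) ∧ Enc c true φ (m + 1) (ent m j))
    (h7 : ∀ j, j < siz 7 → Dead 7 7 8 (ent 7 j))
    (h8 : ∀ j, j < siz 8 → Dead 8 8 9 (ent 8 j))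
    (h9 : ∀ j, j < siz 8 → Dead 13 9 9 (ent 8 j))
    (c : Fin 14 → Fin 14 → Bool) (hc : Bad c) (v : Fin 14)
    (hv : ∀ col x, dg c col x ≤ dg c true v) (h : 7 ≤ dg c true v) : False := by
  rcases Nat.lt_or_ge (dg c true v) 8 with h8' | h8'
  · -- degree 7
    obtain ⟨j, φ, hj, hφ, hi, he⟩ := h0 c hc v 7 (Or.inl rfl) h
    refine h7 j hj c hc ?_ φ hi ?_ he
    · intro col x
      have := hv col x
      omega
    · rw [hφ]
      exact h
  · obtain ⟨j, φ, hj, hφ, hi, he⟩ := h0 c hc v 8 (Or.inr rfl) h8'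
    rcases Nat.lt_or_ge (dg c true v) 9 with h9' | h9'
    · refine h8 j hj c hc ?_ φ hi ?_ he
      · intro col x
        have := hv col x
        omega
      · rw [hφ]
        exact h8'
    · refine h9 j hj c hc ?_ φ hi ?_ he
      · intro col x
        have := dg_add c x
        cases col <;> omega
      · rw [hφ]
        exact h9'

end TopAux

open TopAux in
theorem top : S_TOP := by
  classical
  intro ent siz h0 h7 h8 h9 G
  by_contra hcon
  rw [not_or] at hcon
  obtain ⟨hG, hGc⟩ := hcon
  -- the colouring of `G`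
  set c : Fin 14 → Fin 14 → Bool := fun x y => decide (G.Adj x y) with hcdef
  have adt : ∀ x y, ad c true x y → G.Adj x y := by
    rintro x y ⟨-, h⟩
    simpa [hcdef] using h
  have adf : ∀ x y, ad c false x y → Gᶜ.Adj x y := by
    rintro x y ⟨hxy, h⟩
    rw [SimpleGraph.compl_adj]
    exact ⟨hxy, by simpa [hcdef] using h⟩
  have hc : Bad c := by
    constructor
    · intro x y
      simp only [hcdef, G.adj_comm x y]
    · intro col p q a b d e h1 h2 h3 h4 h5 g1 g2 g3 g4 g5 g6 g7 g8 g9 g10
      cases col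
      · exact hGc ⟨p, q, a, b, d, e, h1, h2, h3, h4, h5, adf _ _ g1, adf _ _ g2, adf _ _ g3,
          adf _ _ g4, adf _ _ g5, adf _ _ g6, adf _ _ g7, adf _ _ g8, adf _ _ g9, adf _ _ g10⟩
      · exact hG ⟨p, q, a, b, d, e, h1, h2, h3, h4, h5, adt _ _ g1, adt _ _ g2, adt _ _ g3,
          adt _ _ g4, adt _ _ g5, adt _ _ g6, adt _ _ g7, adt _ _ g8, adt _ _ g9, adt _ _ g10⟩
  -- the largest degree
  obtain ⟨⟨col, v⟩, -, hmax⟩ := Finset.exists_max_image (Finset.univ : Finset (Bool × Fin 14))
    (fun t => dg c t.1 t.2) ⟨(true, 0), Finset.mem_univ _⟩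
  have hmax' : ∀ col' x, dg c col' x ≤ dg c col v := fun col' x =>
    hmax (col', x) (Finset.mem_univ _)
  have h7' : 7 ≤ dg c col v := by
    have h1 := dg_add c v
    have h2 := hmax' true v
    have h3 := hmax' false v
    omega
  cases col
  · refine main ent siz h0 h7 h8 h9 (fl c) (bad_fl hc) v ?_ ?_
    · intro col' x
      rw [dg_fl, dg_fl]
      exact hmax' _ _
    · rw [dg_fl]
      exact h7'
  · exact main ent siz h0 h7 h8 h9 c hc v hmax' h7'

end Pool.Agent.Helper36.RM
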