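import Pool.Agent.Helper36.RM.All
import Pool.Agent.Helper36.RM.Dat
import Pool.Agent.Helper36.RM.Tab
import Pool.Agent.Helper36.RM.ClsS
import Pool.Agent.Helper36.RM.Top

/-!
# Ramsey multiplicity one (MP_62567c_co): the upper bound `r(F) ≤ 14`
-/

set_option autoImplicit false

namespace Pool.Agent.Helper36.RM

theorem up : S_UP := by
  have hcls := CL.cls tab pa_main pb_main LL siz CC _ (by decide) (by decide +kernel) rfl data
  refine top (fun m j => ent (LL m) j) siz ?_ (fun j hj => deadB tab j hj)
    (fun j hj => deadC tab j hj) (fun j hj => deadD tab j hj)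
  intro c hc v m hm hv
  exact hcls m (by omega) c hc v hv

end Pool.Agent.Helper36.RM
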